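import Pool.Agent.Work.MP_113634_trap.Interface

set_option autoImplicit false

namespace Pool.Agent.Work.MP_113634_trap.GLsec

/-- the pairs which are products of pairs `(c, c + 1)` -/
def GG (F : Type) [Field F] (y z : F) : Prop :=
  ∃ xs : List F, (∀ c ∈ xs, c ≠ 0 ∧ c + 1 ≠ 0) ∧ xs.prod = y ∧
    (xs.map (fun c => c + 1)).prod = z

variable {F : Type} [Field F]

theorem gg_one : GG F 1 1 := ⟨[], by simp, by simp, by simp⟩

theorem gg_base (c : F) (h0 : c ≠ 0) (h1 : c + 1 ≠ 0) : GG F c (c + 1) :=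
  ⟨[c], by simpa using ⟨h0, h1⟩, by simp, by simp⟩

theorem gg_mul {y z y' z' : F} (h : GG F y z) (h' : GG F y' z') : GG F (y * y') (z * z') := by
  obtain ⟨xs, h1, h2, h3⟩ := h
  obtain ⟨ys, k1, k2, k3⟩ := h'
  refine ⟨xs ++ ys, ?_, ?_, ?_⟩
  · intro c hc
    rcases List.mem_append.mp hc with h | h
    · exact h1 c h
    · exact k1 c h
  · rw [List.prod_append, h2, k2]
  · rw [List.map_append, List.prod_append, h3, k3]

theorem gg_pow {y z : F} (h : GG F y z) (n : ℕ) : GG F (y ^ n) (z ^ n) := by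
  induction n with
  | zero => simpa using gg_one
  | succ n ih => rw [pow_succ, pow_succ]; exact gg_mul ih h

theorem gg_ne {y z : F} (h : GG F y z) : y ≠ 0 ∧ z ≠ 0 := by
  obtain ⟨xs, h1, h2, h3⟩ := h
  constructor
  · rw [← h2]
    intro h0
    exact (h1 0 (List.prod_eq_zero_iff.mp h0)).1 rfl
  · rw [← h3]
    intro h0
    have := List.prod_eq_zero_iff.mp h0
    obtain ⟨c, hc, hc0⟩ := List.mem_map.mp this
    exact (h1 c hc).2 hc0

theorem gg_inv [Fintype F] {y z : F} (h : GG F y z) : GG F y⁻¹ z⁻¹ := by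
  obtain ⟨hy, hz⟩ := gg_ne h
  have hc : 1 < Fintype.card F := Fintype.one_lt_card
  have key : ∀ a : F, a ≠ 0 → a ^ (Fintype.card F - 2) = a⁻¹ := by
    intro a ha
    have h1 : a ^ (Fintype.card F - 1) = 1 := FiniteField.pow_card_sub_one_eq_one a ha
    have h2 : a ^ (Fintype.card F - 2) * a = 1 := by
      rw [← pow_succ, ← h1]
      congr 1
      omega
    exact eq_inv_of_mul_eq_one_left h2
  have := gg_pow h (Fintype.card F - 2)
  rwa [key y hy, key z hz] at this

theorem gg_step [Fintype F] (k : F) (h0 : k ≠ 0) (h1 : k ≠ 1) : GG F 1 (-((k - 1) ^ 2 / k)) := by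
  have ha : (-k) ≠ 0 := neg_ne_zero.mpr h0
  have hb : (-k) + 1 ≠ 0 := by
    intro h
    exact h1 (by linear_combination -h)
  have e1 := gg_base (-k) ha hb
  have hi : (-k)⁻¹ ≠ 0 := inv_ne_zero ha
  have hi' : (-k)⁻¹ + 1 ≠ 0 := by
    intro h
    apply h1
    have : (-k) * ((-k)⁻¹ + 1) = 0 := by rw [h, mul_zero]
    rw [mul_add, mul_inv_cancel₀ ha] at this
    linear_combination -this
  have e2 := gg_mul e1 (gg_base _ hi hi')
  rw [mul_inv_cancel₀ ha] at e2
  have : ((-k) + 1) * ((-k)⁻¹ + 1) = -((k - 1) ^ 2 / k) := by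
    field_simp
    ring
  rwa [this] at e2

theorem gg_H [Fintype F] (h2 : (2 : F) ≠ 0) (h3 : (3 : F) ≠ 0) : GG F 1 (-1) := by
  have e2 := gg_step (2 : F) h2 (by
    intro h; apply (one_ne_zero : (1 : F) ≠ 0); linear_combination h)
  have e3 := gg_step (3 : F) h3 (by
    intro h; apply h2; linear_combination h)
  have h4 : (4 : F) ≠ 0 := by
    have : (4 : F) = 2 * 2 := by norm_num
    rw [this]; exact mul_ne_zero h2 h2
  have e4 := gg_step (4 : F) h4 (by
    intro h; apply h3; linear_combination h)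
  -- a = -1/2, b = -4/3, c = -9/4
  have a2 := gg_mul e2 e2 -- 1/4
  have b1 := gg_mul e3 a2 -- -1/3
  have b2 := gg_mul b1 b1 -- 1/9
  have c1 := gg_mul e4 (gg_mul b2 (gg_inv a2))
  have e : (1 : F) * (1 * (1 * 1) * (1 * (1 * 1)) * (1 * 1)⁻¹) = 1 := by simp
  have e' : -(((4 : F) - 1) ^ 2 / 4) * (-((3 - 1) ^ 2 / 3) * (-((2 - 1) ^ 2 / 2) * -((2 - 1) ^ 2 / 2)) *
      (-((3 - 1) ^ 2 / 3) * (-((2 - 1) ^ 2 / 2) * -((2 - 1) ^ 2 / 2))) *
      (-((2 - 1) ^ 2 / 2) * -((2 - 1) ^ 2 / 2))⁻¹) = -1 := by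
    have n1 : (4 : F) - 1 = 3 := by norm_num
    have n2 : (3 : F) - 1 = 2 := by norm_num
    have n3 : (2 : F) - 1 = 1 := by norm_num
    rw [n1, n2, n3]
    field_simp
    norm_num
  rw [e, e'] at c1
  exact c1

theorem gg_all (l : ℕ) [Fact l.Prime] (hl : 5 ≤ l) (y z : ZMod l) (hy : y ≠ 0) (hz : z ≠ 0) :
    GG (ZMod l) y z := by
  have hn : ∀ m : ℕ, 0 < m → m < l → (m : ZMod l) ≠ 0 := by
    intro m h0 h1 h
    rw [ZMod.natCast_eq_zero_iff] at h
    exact absurd (Nat.le_of_dvd h0 h) (by omega)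
  have h2 : (2 : ZMod l) ≠ 0 := by exact_mod_cast hn 2 (by omega) (by omega)
  have h3 : (3 : ZMod l) ≠ 0 := by exact_mod_cast hn 3 (by omega) (by omega)
  have hm1 := gg_H h2 h3
  have hnat : ∀ m : ℕ, 0 < m → m < l → GG (ZMod l) 1 (m : ZMod l) := by
    intro m h0
    induction m with
    | zero => omega
    | succ m ih =>
      intro h1
      rcases Nat.eq_zero_or_pos m with h | h
      · subst h; simpa using gg_one
      · have ihm := ih h (by omega)
        have hm : (m : ZMod l) ≠ 0 := hn m h (by omega)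
        have hs : ((m + 1 : ℕ) : ZMod l) ≠ 0 := hn (m + 1) (by omega) h1
        have hs1 : ((m + 1 : ℕ) : ZMod l) ≠ 1 := by
          intro h; apply hm; push_cast at h; linear_combination h
        have st := gg_step _ hs hs1
        have t := gg_mul (gg_mul hm1 (gg_mul ihm ihm)) (gg_inv st)
        have e : (1 : ZMod l) * (1 * 1) * 1⁻¹ = 1 := by simp
        have e' : (-1 : ZMod l) * ((m : ZMod l) * (m : ZMod l)) *
            (-((((m + 1 : ℕ) : ZMod l) - 1) ^ 2 / ((m + 1 : ℕ) : ZMod l)))⁻¹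
            = ((m + 1 : ℕ) : ZMod l) := by
          have q : ((m + 1 : ℕ) : ZMod l) - 1 = (m : ZMod l) := by push_cast; ring
          rw [q]
          field_simp
        rwa [e, e'] at t
  have hH : ∀ h : ZMod l, h ≠ 0 → GG (ZMod l) 1 h := by
    intro h hh
    have := hnat h.val (by
      rcases Nat.eq_zero_or_pos h.val with h0 | h0
      · exact absurd ((ZMod.val_eq_zero h).mp h0) hh
      · exact h0) (ZMod.val_lt h)
    rwa [ZMod.natCast_zmod_val] at this
  by_cases hy1 : y = -1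
  · subst hy1
    have a := gg_base (2 : ZMod l) h2 (by
      have : (2 : ZMod l) + 1 = 3 := by norm_num
      rw [this]; exact h3)
    have b := gg_base (-(2 : ZMod l)⁻¹) (neg_ne_zero.mpr (inv_ne_zero h2)) (by
      intro h
      apply (one_ne_zero : (1 : ZMod l) ≠ 0)
      have : (2 : ZMod l) * (-(2 : ZMod l)⁻¹ + 1) = 0 := by rw [h, mul_zero]
      rw [mul_add, mul_neg, mul_inv_cancel₀ h2] at this
      linear_combination this)
    have c := gg_mul a b
    have ne := gg_ne c
    have d := gg_mul c (hH (z * ((2 + 1) * (-(2 : ZMod l)⁻¹ + 1))⁻¹)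
      (mul_ne_zero hz (inv_ne_zero ne.2)))
    have e : (2 : ZMod l) * -(2 : ZMod l)⁻¹ * 1 = -1 := by
      rw [mul_neg, mul_inv_cancel₀ h2]; simp
    have e' : (2 + 1) * (-(2 : ZMod l)⁻¹ + 1) * (z * ((2 + 1) * (-(2 : ZMod l)⁻¹ + 1))⁻¹) = z := by
      rw [mul_comm z, ← mul_assoc, mul_inv_cancel₀ ne.2, one_mul]
    rwa [e, e'] at d
  · have hy2 : y + 1 ≠ 0 := by
      intro h; apply hy1; linear_combination h
    have d := gg_mul (gg_base y hy hy2) (hH (z * (y + 1)⁻¹) (mul_ne_zero hz (inv_ne_zero hy2)))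
    have e' : (y + 1) * (z * (y + 1)⁻¹) = z := by
      rw [mul_comm z, ← mul_assoc, mul_inv_cancel₀ hy2, one_mul]
    rwa [mul_one, e'] at d

end GLsec

open GLsec in
theorem blk_GL : Stmt_GL := by
  intro l hl hl5 y z hy hz
  haveI : Fact l.Prime := ⟨hl⟩
  have hy' : (y : ZMod l) ≠ 0 := by
    intro h; exact hy ((ZMod.natCast_eq_zero_iff y l).mp h)
  have hz' : (z : ZMod l) ≠ 0 := by
    intro h; exact hz ((ZMod.natCast_eq_zero_iff z l).mp h)
  obtain ⟨xs, h1, h2, h3⟩ := gg_all l hl5 (y : ZMod l) (z : ZMod l) hy' hz'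
  have h20 : (2 : ZMod l) ≠ 0 := by
    intro h
    have h' : ((2 : ℕ) : ZMod l) = 0 := by exact_mod_cast h
    rw [ZMod.natCast_eq_zero_iff] at h'
    exact absurd (Nat.le_of_dvd (by norm_num) h') (by omega)
  set L : List (ZMod l) := xs ++ List.replicate (l - 1) 1 with hL
  have hLp : L.prod = (y : ZMod l) := by
    rw [hL, List.prod_append, h2, List.prod_replicate, one_pow, mul_one]
  have hLq : (L.map (fun c => c + 1)).prod = (z : ZMod l) := by
    rw [hL, List.map_append, List.prod_append, h3, List.map_replicate, List.prod_replicate]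
    have : (1 + 1 : ZMod l) ^ (l - 1) = 1 := by
      apply ZMod.pow_card_sub_one_eq_one
      intro h; apply h20; rw [← h]; norm_num
    rw [this, mul_one]
  have hLm : ∀ c ∈ L, c ≠ 0 ∧ c + 1 ≠ 0 := by
    intro c hc
    rcases List.mem_append.mp hc with h | h
    · exact h1 c h
    · rw [List.eq_of_mem_replicate h]
      refine ⟨one_ne_zero, ?_⟩
      intro h; apply h20; rw [← h]; norm_num
  refine ⟨L.map ZMod.val, ?_, ?_, ?_, ?_⟩
  · rw [List.length_map, hL, List.length_append, List.length_replicate]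
    omega
  · intro c hc
    obtain ⟨d, hd, rfl⟩ := List.mem_map.mp hc
    obtain ⟨k1, k2⟩ := hLm d hd
    constructor
    · intro h
      apply k1
      have := (ZMod.natCast_eq_zero_iff d.val l).mpr h
      rwa [ZMod.natCast_zmod_val] at this
    · intro h
      apply k2
      have := (ZMod.natCast_eq_zero_iff (d.val + 1) l).mpr h
      push_cast at this
      rwa [ZMod.natCast_zmod_val] at this
  · rw [← ZMod.natCast_eq_natCast_iff, Nat.cast_list_prod, List.map_map, ← hLp]
    congr 1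
    have : (Nat.cast ∘ ZMod.val : ZMod l → ZMod l) = id := by
      funext c; simp
    rw [this, List.map_id]
  · rw [← ZMod.natCast_eq_natCast_iff, Nat.cast_list_prod, List.map_map, List.map_map, ← hLq]
    congr 1
    apply List.map_congr_left
    intro c _
    simp

end Pool.Agent.Work.MP_113634_trap
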