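import Pool.Agent.Work.MP_113634_trap.Interface

/-!
# The guard
-/

set_option autoImplicit false

namespace Pool.Agent.Work.MP_113634_trap

open Pool.Agent.Work.MP_113634_nt (usum)

theorem GRD_primes (C : ℕ) : ∃ Q : Finset ℕ, (∀ q ∈ Q, q.Prime ∧ q ≠ 2) ∧
    (C + 1) * ∏ q ∈ Q, q < ∏ q ∈ Q, (q + 1) := by
  classical
  have h0 : ∀ n : ℕ, (0 : ℝ) ≤ Set.indicator {p : ℕ | p.Prime} (fun n : ℕ => (1 : ℝ) / n) n := by
    intro n
    exact Set.indicator_nonneg (fun p _ => by positivity) n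
  have h1 := (not_summable_iff_tendsto_nat_atTop_of_nonneg h0).mp not_summable_one_div_on_primes
  obtain ⟨k, hk⟩ := (h1.eventually_gt_atTop ((C : ℝ) + 2)).exists
  set Q := (Finset.range k).filter fun p => p.Prime ∧ p ≠ 2 with hQ
  have hQ' : ∀ q ∈ Q, q.Prime ∧ q ≠ 2 := fun q hq => (Finset.mem_filter.mp hq).2
  refine ⟨Q, hQ', ?_⟩
  have h2 : ∑ n ∈ Finset.range k, Set.indicator {p : ℕ | p.Prime} (fun n : ℕ => (1 : ℝ) / n) n ≤
      1 + ∑ q ∈ Q, (1 : ℝ) / q := by
    rw [← Finset.sum_filter_add_sum_filter_not (Finset.range k) (fun p => p.Prime ∧ p ≠ 2), add_comm]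
    refine add_le_add ?_ ?_
    · calc ∑ n ∈ (Finset.range k).filter (fun p => ¬ (p.Prime ∧ p ≠ 2)),
            Set.indicator {p : ℕ | p.Prime} (fun n : ℕ => (1 : ℝ) / n) n
          ≤ ∑ n ∈ (Finset.range k).filter (fun p => ¬ (p.Prime ∧ p ≠ 2)),
            (if n = 2 then (1 : ℝ) else 0) := by
            refine Finset.sum_le_sum fun n hn => ?_
            have hn' := (Finset.mem_filter.mp hn).2
            by_cases hp : n.Prime
            · have hn2 : n = 2 := by
                by_contra hne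
                exact hn' ⟨hp, hne⟩
              rw [if_pos hn2, Set.indicator_of_mem (by exact hp), hn2]
              norm_num
            · rw [Set.indicator_of_notMem (by exact hp)]
              split_ifs <;> norm_num
        _ ≤ 1 := by
            rw [Finset.sum_ite_eq']
            split_ifs <;> norm_num
    · refine Finset.sum_le_sum fun n hn => ?_
      rw [Set.indicator_of_mem (by exact (hQ' n hn).1)]
  have h3 : ∀ S : Finset ℕ, ∑ q ∈ S, (1 : ℝ) / q ≤ ∏ q ∈ S, (1 + (1 : ℝ) / q) ∧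
      1 ≤ ∏ q ∈ S, (1 + (1 : ℝ) / q) := by
    intro S
    induction S using Finset.induction_on with
    | empty => simp
    | insert q S hq ih =>
      rw [Finset.sum_insert hq, Finset.prod_insert hq]
      have hq0 : (0 : ℝ) ≤ 1 / q := by positivity
      constructor <;> nlinarith [ih.1, ih.2]
  have h4 : (C : ℝ) + 1 < ∏ q ∈ Q, (1 + (1 : ℝ) / q) := by
    have := (h3 Q).1
    linarith
  have hpos : (0 : ℝ) < ∏ q ∈ Q, (q : ℝ) :=
    Finset.prod_pos fun q hq => by exact_mod_cast (hQ' q hq).1.pos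
  have h5 : (∏ q ∈ Q, (1 + (1 : ℝ) / q)) * ∏ q ∈ Q, (q : ℝ) = ∏ q ∈ Q, ((q : ℝ) + 1) := by
    rw [← Finset.prod_mul_distrib]
    refine Finset.prod_congr rfl fun q hq => ?_
    have : (q : ℝ) ≠ 0 := by exact_mod_cast (hQ' q hq).1.ne_zero
    field_simp
  have h6 : ((C : ℝ) + 1) * ∏ q ∈ Q, (q : ℝ) < ∏ q ∈ Q, ((q : ℝ) + 1) := by
    rw [← h5]
    exact mul_lt_mul_of_pos_right h4 hpos
  have h7 : (((C + 1) * ∏ q ∈ Q, q : ℕ) : ℝ) < ((∏ q ∈ Q, (q + 1) : ℕ) : ℝ) := by
    push_cast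
    exact h6
  exact Nat.cast_lt.mp h7

theorem GRD_sq (c : ℕ) (hc : c.Prime) (h8 : c % 8 = 3) : c ^ 2 ∣ 2 ^ (c / 2 * c) + 1 := by
  have : Fact c.Prime := ⟨hc⟩
  have hc2 : c ≠ 2 := by omega
  have hodd : Odd c := Nat.odd_iff.mpr (by omega)
  have h2 : (2 : ZMod c) ≠ 0 := by
    intro h
    have : ((2 : ℕ) : ZMod c) = 0 := by exact_mod_cast h
    rw [ZMod.natCast_eq_zero_iff] at this
    have := Nat.le_of_dvd (by norm_num) this
    omega
  have h3 : ¬ IsSquare (2 : ZMod c) := by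
    rw [ZMod.exists_sq_eq_two_iff hc2]
    omega
  have h4 : (2 : ZMod c) ^ (c / 2) = -1 := by
    rcases ZMod.pow_div_two_eq_neg_one_or_one c h2 with h | h
    · exact absurd ((ZMod.euler_criterion c h2).mpr h) h3
    · exact h
  have h5 : (c : ℤ) ∣ 2 ^ (c / 2) - (-1) := by
    rw [← ZMod.intCast_zmod_eq_zero_iff_dvd]
    push_cast
    rw [h4]
    ring
  have h6 := dvd_sub_pow_of_dvd_sub h5 1
  rw [pow_one, hodd.neg_one_pow, ← pow_mul] at h6
  have h7 : ((c ^ 2 : ℕ) : ℤ) ∣ ((2 ^ (c / 2 * c) + 1 : ℕ) : ℤ) := by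
    push_cast
    have e : (2 : ℤ) ^ (c / 2 * c) + 1 = 2 ^ (c / 2 * c) - -1 := by ring
    rw [e]
    exact h6
  exact_mod_cast h7

theorem stmt_GRD (h : Stmt_US2) : Stmt_GRD := by
  classical
  intro C
  obtain ⟨Q, hQ, hC⟩ := GRD_primes C
  set R := ∏ q ∈ Q, q with hR
  have hRpos : 0 < R := Finset.prod_pos fun q hq => (hQ q hq).1.pos
  have hR2 : Nat.Coprime 8 (R ^ 2) := by
    have : Nat.Coprime 2 R := by
      refine Nat.coprime_prod_right_iff.mpr fun q hq => ?_
      exact (Nat.coprime_primes Nat.prime_two (hQ q hq).1).2 (hQ q hq).2.symm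
    exact (this.pow_left 3).pow_right 2
  obtain ⟨a, ha8, haR⟩ := Nat.chineseRemainder hR2 3 (R ^ 2 - 1)
  have hR2pos : 0 < R ^ 2 := by positivity
  have hacop : a.Coprime (8 * R ^ 2) := by
    refine Nat.Coprime.mul_right ?_ ?_
    · have h1 := ha8.gcd_eq
      show Nat.gcd a 8 = 1
      rw [h1]
      rfl
    · have h1 := haR.gcd_eq
      show Nat.gcd a (R ^ 2) = 1
      rw [h1]
      have h2 : R ^ 2 = (R ^ 2 - 1) + 1 := by omega
      rw [h2]
      simp
  obtain ⟨c, hcgt, hc, hca⟩ := Nat.forall_exists_prime_gt_and_modEq (R + 2)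
    (q := 8 * R ^ 2) (a := a) (by positivity) hacop
  have hc8 : c % 8 = 3 := by
    have h1 : c ≡ a [MOD 8] := hca.of_mul_right _
    have h2 : c ≡ 3 [MOD 8] := h1.trans ha8
    exact h2
  have hcR : R ^ 2 ∣ c + 1 := by
    have h1 : c ≡ a [MOD R ^ 2] := hca.of_mul_left _
    have h2 : c + 1 ≡ (R ^ 2 - 1) + 1 [MOD R ^ 2] := (h1.trans haR).add_right 1
    rw [Nat.sub_add_cancel hR2pos] at h2
    exact (Nat.modEq_zero_iff_dvd).mp (h2.trans (by simp [Nat.ModEq]))
  have hcQ : c ∉ Q := by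
    intro hcQ
    have := Nat.le_of_dvd hRpos (Finset.dvd_prod_of_mem (fun q => q) hcQ)
    omega
  have h2Q : (2 : ℕ) ∉ insert c Q := by
    rw [Finset.mem_insert]
    rintro (h1 | h1)
    · omega
    · exact (hQ 2 h1).2 rfl
  set s := insert 2 (insert c Q) with hs
  set e := c / 2 * c with he
  have hepos : 0 < e := by
    have : 0 < c / 2 := by omega
    exact Nat.mul_pos this hc.pos
  let f : ℕ → ℕ := fun p => if p = 2 then e else 1
  have hfpos : ∀ p, f p ≠ 0 := by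
    intro p
    show (if p = 2 then e else 1) ≠ 0
    split_ifs
    · exact hepos.ne'
    · norm_num
  have hsprime : ∀ p ∈ s, p.Prime := by
    intro p hp
    rw [hs, Finset.mem_insert, Finset.mem_insert] at hp
    rcases hp with rfl | rfl | hp
    · exact Nat.prime_two
    · exact hc
    · exact (hQ p hp).1
  have hf1 : ∀ p ∈ insert c Q, f p = 1 := by
    intro p hp
    have : p ≠ 2 := by
      rintro rfl
      exact h2Q hp
    exact if_neg this
  have hf2 : f 2 = e := if_pos rfl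
  have hN : ∏ p ∈ s, p ^ f p = 2 ^ e * (c * R) := by
    rw [hs, Finset.prod_insert h2Q, hf2, Finset.prod_congr rfl
      (fun p hp => by rw [hf1 p hp, pow_one] : ∀ p ∈ insert c Q, p ^ f p = p),
      Finset.prod_insert hcQ]
  have hU : usum (∏ p ∈ s, p ^ f p) = (2 ^ e + 1) * ((c + 1) * ∏ q ∈ Q, (q + 1)) := by
    rw [h s f hsprime, Finset.prod_congr rfl
      (fun p _ => by rw [if_neg (hfpos p)] : ∀ p ∈ s, (if f p = 0 then 1 else p ^ f p + 1) =
        p ^ f p + 1), hs, Finset.prod_insert h2Q, hf2, Finset.prod_congr rfl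
      (fun p hp => by rw [hf1 p hp, pow_one] : ∀ p ∈ insert c Q, p ^ f p + 1 = p + 1),
      Finset.prod_insert hcQ]
  refine ⟨∏ p ∈ s, p ^ f p, ?_, ?_, ?_⟩
  · rw [hN]
    have h1 : 2 ≤ 2 ^ e := Nat.le_self_pow hepos.ne' 2
    have h2 : 1 ≤ c * R := Nat.mul_pos hc.pos hRpos
    nlinarith
  · rw [hU, hN]
    calc (C + 1) * (2 ^ e * (c * R)) = 2 ^ e * (c * ((C + 1) * R)) := by ring
      _ ≤ 2 ^ e * ((c + 1) * ∏ q ∈ Q, (q + 1)) :=
          Nat.mul_le_mul_left _ (Nat.mul_le_mul (Nat.le_succ c) hC.le)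
      _ < (2 ^ e + 1) * ((c + 1) * ∏ q ∈ Q, (q + 1)) := by
          refine Nat.mul_lt_mul_of_pos_right (Nat.lt_succ_self _) ?_
          exact Nat.mul_pos (Nat.succ_pos _) (Finset.prod_pos fun q _ => Nat.succ_pos _)
  · intro l hl hl2 hlN
    have hls : l ∈ s := by
      rw [(hl.prime).dvd_finsetProd_iff] at hlN
      obtain ⟨p, hp, hlp⟩ := hlN
      rwa [(Nat.prime_dvd_prime_iff_eq hl (hsprime p hp)).mp (hl.dvd_of_dvd_pow hlp)]
    have hls' : l ∈ insert c Q := by
      rw [hs, Finset.mem_insert] at hls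
      exact hls.resolve_left hl2
    have hfac : (∏ p ∈ s, p ^ f p).factorization l = 1 := by
      rw [Nat.factorization_prod (fun p hp => (pow_pos (hsprime p hp).pos _).ne'),
        Finset.sum_congr rfl (fun p hp => (hsprime p hp).factorization_pow : ∀ p ∈ s,
          (p ^ f p).factorization = Finsupp.single p (f p)), Finsupp.finsetSum_apply]
      simp only [Finsupp.single_apply]
      rw [Finset.sum_ite_eq' s l, if_pos hls, hf1 l hls']
    rw [hfac, hU]
    rw [Finset.mem_insert] at hls'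
    rcases hls' with rfl | hlQ
    · exact Dvd.dvd.mul_right (GRD_sq l hl hc8) _
    · have h1 : l ∣ R := Finset.dvd_prod_of_mem (fun q => q) hlQ
      have h2 : l ^ 2 ∣ c + 1 := (pow_dvd_pow_of_dvd h1 2).trans hcR
      exact Dvd.dvd.mul_left (Dvd.dvd.mul_right h2 _) _

end Pool.Agent.Work.MP_113634_trap
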