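import Pool.Agent.Work.MP_113634_trap.Interface

/-!
# Congruence traps for the unitary aliquot map: block GST
-/

set_option autoImplicit false

namespace Pool.Agent.Work.MP_113634_trap

open Pool.Agent.Work.MP_113634_nt (usum sstar usum_mul self_le_usum sstar_add)

theorem GST_pp {p a : ℕ} (hp : p.Prime) (ha : 0 < a) : usum (p ^ a) = p ^ a + 1 := by
  have h0 : (p ^ a).divisors.filter (fun d => Nat.Coprime d (p ^ a / d)) = {p ^ a, 1} := by
    ext d
    simp only [Finset.mem_filter, Nat.mem_divisors, Finset.mem_insert, Finset.mem_singleton]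
    constructor
    · rintro ⟨⟨h1, _⟩, h3⟩
      obtain ⟨j, hj, rfl⟩ := (Nat.dvd_prime_pow hp).1 h1
      rw [Nat.pow_div hj hp.pos] at h3
      by_cases hj0 : j = 0
      · right
        rw [hj0, pow_zero]
      · by_cases hja : a - j = 0
        · left
          have : j = a := by omega
          rw [this]
        · exfalso
          have h4 : p ∣ Nat.gcd (p ^ j) (p ^ (a - j)) :=
            Nat.dvd_gcd (dvd_pow_self p hj0) (dvd_pow_self p hja)
          rw [h3.gcd_eq_one] at h4
          exact hp.one_lt.ne' (Nat.dvd_one.1 h4)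
    · have hpos : 0 < p ^ a := pow_pos hp.pos a
      rintro (rfl | rfl)
      · refine ⟨⟨dvd_rfl, hpos.ne'⟩, ?_⟩
        rw [Nat.div_self hpos]
        exact Nat.coprime_one_right _
      · exact ⟨⟨one_dvd _, hpos.ne'⟩, Nat.coprime_one_left _⟩
  unfold usum
  rw [h0, Finset.sum_insert, Finset.sum_singleton]
  rw [Finset.mem_singleton]
  exact (Nat.one_lt_pow ha.ne' hp.one_lt).ne'

theorem GST_even (m : ℕ) : 0 < m → ¬ 2 ∣ m → 2 ^ m.primeFactors.card ∣ usum m := by
  induction m using Nat.recOnPosPrimePosCoprime with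
  | prime_pow p n hp hn =>
    intro _ h2
    rw [Nat.primeFactors_prime_pow hn.ne' hp, Finset.card_singleton, pow_one, GST_pp hp hn]
    have h3 : ¬ 2 ∣ p := fun h => h2 (h.trans (dvd_pow_self p hn.ne'))
    have h4 : Odd (p ^ n) := (Nat.odd_iff.2 (by omega)).pow
    obtain ⟨k, hk⟩ := h4
    exact ⟨k + 1, by rw [hk]; ring⟩
  | zero => intro h; exact absurd h (lt_irrefl 0)
  | one => intro _ _; simp
  | coprime a b ha hb hab iha ihb =>
    intro _ h2
    have ha0 : 0 < a := by omega
    have hb0 : 0 < b := by omega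
    rw [hab.primeFactors_mul, Finset.card_union_of_disjoint hab.disjoint_primeFactors, pow_add,
      usum_mul ha0 hb0 hab]
    exact mul_dvd_mul (iha ha0 fun h => h2 (h.mul_right b)) (ihb hb0 fun h => h2 (h.mul_left a))

theorem stmt_GST : Stmt_GST := by
  intro N hN hodd m hm hco hcard
  have hN0 : 0 < N := by omega
  have hNm : 0 < N * m := Nat.mul_pos hN0 hm
  have hU : usum (N * m) = usum N * usum m := usum_mul hN0 hm hco
  have hUpos : 0 < usum (N * m) := lt_of_lt_of_le hNm (self_le_usum hNm)
  have key : ∀ l : ℕ, l.Prime → l ∣ N → l ^ (N.factorization l + 1) ∣ usum (N * m) := by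
    intro l hl hlN
    rw [hU]
    by_cases h2 : l = 2
    · subst h2
      have h3 : ¬ 2 ∣ m := by
        intro h
        have h4 : 2 ∣ Nat.gcd N m := Nat.dvd_gcd hlN h
        rw [hco.gcd_eq_one] at h4
        omega
      exact ((pow_dvd_pow 2 (by omega : N.factorization 2 + 1 ≤ m.primeFactors.card)).trans
        (GST_even m hm h3)).mul_left _
    · exact (hodd l hl h2 hlN).mul_right _
  have hdvd : N ∣ usum (N * m) := by
    rw [← Nat.factorization_prime_le_iff_dvd hN0.ne' hUpos.ne']
    intro l hl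
    by_cases hlN : l ∣ N
    · have h1 := (hl.pow_dvd_iff_le_factorization hUpos.ne').1 (key l hl hlN)
      omega
    · rw [Nat.factorization_eq_zero_of_not_dvd hlN]
      exact Nat.zero_le _
  obtain ⟨q, hq⟩ := hdvd
  have hle : N * m ≤ N * q := by rw [← hq]; exact self_le_usum hNm
  have hmq : m ≤ q := Nat.le_of_mul_le_mul_left hle hN0
  refine ⟨q - m, ?_, ?_⟩
  · have h1 := sstar_add hNm
    rw [hq] at h1
    rw [Nat.mul_sub]
    omega
  · rw [Nat.coprime_iff_gcd_eq_one]
    by_contra hne
    obtain ⟨l, hl, hld⟩ := Nat.exists_prime_and_dvd hne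
    have hlN : l ∣ N := hld.trans (Nat.gcd_dvd_left _ _)
    have hlq' : l ∣ q - m := hld.trans (Nat.gcd_dvd_right _ _)
    have hlq : l ∣ q := by
      have h1 := key l hl hlN
      rw [hq] at h1
      obtain ⟨N', hN'⟩ := Nat.ordProj_dvd N l
      have h2 : ¬ l ∣ N' := by
        intro h
        have h3 : l ^ (N.factorization l + 1) ∣ N := by
          rw [pow_succ]
          conv_rhs => rw [hN']
          exact mul_dvd_mul_left _ h
        have h4 := (hl.pow_dvd_iff_le_factorization hN0.ne').1 h3
        omega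
      have h5 : l ^ N.factorization l * l ∣ l ^ N.factorization l * (N' * q) := by
        rw [← pow_succ, ← mul_assoc, ← hN']
        exact h1
      have h6 := Nat.dvd_of_mul_dvd_mul_left (pow_pos hl.pos _) h5
      exact (hl.dvd_mul.1 h6).resolve_left h2
    have hlm : l ∣ m := by
      have h1 := Nat.dvd_sub hlq hlq'
      rwa [Nat.sub_sub_self hmq] at h1
    have h7 : l ∣ Nat.gcd N m := Nat.dvd_gcd hlN hlm
    rw [hco.gcd_eq_one] at h7
    exact hl.one_lt.ne' (Nat.dvd_one.1 h7)

end Pool.Agent.Work.MP_113634_trap
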