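import Pool.Agent.Work.MP_113634_trap.Interface
import Pool.Agent.Work.MP_b0c12c_nt_helper41.Mert

set_option autoImplicit false

namespace Pool.Agent.Work.MP_113634_trap.LANsec

open Finset ArithmeticFunction

theorem sum_inj {α β : Type} [DecidableEq β] (s : Finset α) (t : Finset β) (f : α → β)
    (hf : ∀ a ∈ s, f a ∈ t) (hi : Set.InjOn f s) (g : α → ℝ) (h : β → ℝ)
    (hg : ∀ a ∈ s, g a ≤ h (f a)) (hh : ∀ b ∈ t, 0 ≤ h b) :
    ∑ a ∈ s, g a ≤ ∑ b ∈ t, h b := by
  calc ∑ a ∈ s, g a ≤ ∑ a ∈ s, h (f a) := sum_le_sum hg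
    _ = ∑ b ∈ s.image f, h b := (sum_image hi).symm
    _ ≤ ∑ b ∈ t, h b := by
        apply sum_le_sum_of_subset_of_nonneg
        · intro b hb
          obtain ⟨a, ha, rfl⟩ := mem_image.mp hb
          exact hf a ha
        · intro b hb _
          exact hh b hb

/-- integers up to `x` with fewer than `T` prime factors -/
def W (T x : ℕ) : Finset ℕ := (Icc 1 x).filter (fun n => n.primeFactors.card < T)

theorem mem_W {T x n : ℕ} : n ∈ W T x ↔ (1 ≤ n ∧ n ≤ x) ∧ n.primeFactors.card < T := by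
  unfold W; rw [mem_filter, mem_Icc]

theorem decomp {n p : ℕ} (hn : 1 ≤ n) (hp : p.Prime) (hpn : p ∣ n) :
    p ^ n.factorization p * (n / p ^ n.factorization p) = n ∧ 1 ≤ n.factorization p ∧
    1 ≤ n / p ^ n.factorization p ∧
    (n / p ^ n.factorization p).primeFactors.card + 1 = n.primeFactors.card ∧
    n.factorization p ≤ n := by
  have hn0 : n ≠ 0 := by omega
  refine ⟨Nat.ordProj_mul_ordCompl_eq_self n p, ?_, Nat.ordCompl_pos p hn0, ?_, ?_⟩
  · exact hp.factorization_pos_of_dvd hn0 hpn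
  · have h1 : (n / p ^ n.factorization p).primeFactors = n.primeFactors.erase p := by
      rw [← Nat.support_factorization, ← Nat.support_factorization, Nat.factorization_ordCompl,
        Finsupp.support_erase]
    rw [h1, card_erase_of_mem (Nat.mem_primeFactors.mpr ⟨hp, hpn, hn0⟩)]
    have : 0 < n.primeFactors.card := card_pos.mpr ⟨p, Nat.mem_primeFactors.mpr ⟨hp, hpn, hn0⟩⟩
    omega
  · have h1 : n.factorization p < p ^ n.factorization p := Nat.lt_pow_self hp.one_lt
    have h2 := Nat.ordProj_le p hn0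
    omega

noncomputable def PP (x : ℕ) : ℝ :=
  ∑ p ∈ (Icc 1 x).filter Nat.Prime, ∑ a ∈ Icc 1 x, 1 / (p : ℝ) ^ a

noncomputable def SS (T x : ℕ) : ℝ := ∑ m ∈ W T x, 1 / (m : ℝ)

theorem PP_nonneg (x : ℕ) : 0 ≤ PP x :=
  sum_nonneg fun _ _ => sum_nonneg fun _ _ => by positivity

theorem SS_nonneg (T x : ℕ) : 0 ≤ SS T x := sum_nonneg fun _ _ => by positivity

theorem SS_succ (T x : ℕ) : SS (T + 1) x ≤ 1 + PP x * SS T x := by
  have h0 := Finset.sum_filter_add_sum_filter_not (W (T + 1) x) (fun m => m = 1)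
    (fun m : ℕ => 1 / (m : ℝ))
  unfold SS
  rw [← h0]
  have h1 : ∑ m ∈ (W (T + 1) x).filter (fun m => m = 1), 1 / (m : ℝ) ≤ 1 := by
    have : ((W (T + 1) x).filter (fun m => m = 1)) ⊆ {1} := by
      intro m hm
      rw [mem_filter] at hm
      rw [mem_singleton]; exact hm.2
    calc _ ≤ ∑ m ∈ ({1} : Finset ℕ), 1 / (m : ℝ) :=
          sum_le_sum_of_subset_of_nonneg this fun _ _ _ => by positivity
      _ = 1 := by simp
  have h2 : ∑ m ∈ (W (T + 1) x).filter (fun m => ¬ m = 1), 1 / (m : ℝ) ≤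
      ∑ b ∈ (((Icc 1 x).filter Nat.Prime) ×ˢ (Icc 1 x)) ×ˢ (W T x),
        1 / (b.1.1 : ℝ) ^ b.1.2 * (1 / (b.2 : ℝ)) := by
    refine sum_inj _ _ (fun m : ℕ => ((m.minFac, m.factorization m.minFac),
      m / m.minFac ^ m.factorization m.minFac)) ?_ ?_ _ _ ?_ ?_
    · intro m hm
      rw [mem_filter, mem_W] at hm
      obtain ⟨⟨⟨hm1, hmx⟩, hmT⟩, hne⟩ := hm
      have hp : m.minFac.Prime := Nat.minFac_prime hne
      obtain ⟨d1, d2, d3, d4, d5⟩ := decomp hm1 hp (Nat.minFac_dvd m)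
      rw [mem_product, mem_product, mem_filter, mem_Icc, mem_Icc, mem_W]
      refine ⟨⟨⟨⟨hp.one_lt.le, (Nat.minFac_le hm1).trans hmx⟩, hp⟩, d2, d5.trans hmx⟩,
        ⟨d3, (Nat.ordCompl_le m _).trans hmx⟩, ?_⟩
      show (m / m.minFac ^ m.factorization m.minFac).primeFactors.card < T
      omega
    · intro m hm m' hm' he
      simp only [Prod.mk.injEq] at he
      obtain ⟨⟨e1, e2⟩, e3⟩ := he
      rw [← Nat.ordProj_mul_ordCompl_eq_self m m.minFac,
        ← Nat.ordProj_mul_ordCompl_eq_self m' m'.minFac]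
      rw [e3, e2, e1]
    · intro m hm
      rw [mem_filter, mem_W] at hm
      obtain ⟨⟨⟨hm1, hmx⟩, hmT⟩, hne⟩ := hm
      have hp : m.minFac.Prime := Nat.minFac_prime hne
      obtain ⟨d1, d2, d3, d4, d5⟩ := decomp hm1 hp (Nat.minFac_dvd m)
      show 1 / (m : ℝ) ≤ 1 / (m.minFac : ℝ) ^ m.factorization m.minFac *
        (1 / ((m / m.minFac ^ m.factorization m.minFac : ℕ) : ℝ))
      rw [one_div_mul_one_div]
      apply le_of_eq
      congr 1
      exact_mod_cast d1.symm
    · intro b _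
      positivity
  have h3 : ∑ b ∈ (((Icc 1 x).filter Nat.Prime) ×ˢ (Icc 1 x)) ×ˢ (W T x),
        1 / (b.1.1 : ℝ) ^ b.1.2 * (1 / (b.2 : ℝ)) = PP x * ∑ m ∈ W T x, 1 / (m : ℝ) := by
    rw [sum_product, PP, sum_mul_sum, sum_product]
    simp only [sum_mul]
    rw [← sum_product', ← sum_product']
    rw [sum_product, sum_product]
    apply sum_congr rfl
    intro p _
    rw [sum_comm]
  rw [h3] at h2
  linarith

theorem SS_le (T x : ℕ) : SS T x ≤ (1 + PP x) ^ T := by
  induction T with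
  | zero =>
    have : SS 0 x = 0 := by
      unfold SS
      apply sum_eq_zero
      intro m hm
      rw [mem_W] at hm
      omega
    rw [this]; simp
  | succ T ih =>
    have h1 := SS_succ T x
    have h2 := PP_nonneg x
    have h3 : (1 : ℝ) ≤ (1 + PP x) ^ T := one_le_pow₀ (by linarith)
    calc SS (T + 1) x ≤ 1 + PP x * SS T x := h1
      _ ≤ (1 + PP x) ^ T + PP x * (1 + PP x) ^ T := by
          gcongr
      _ = (1 + PP x) ^ (T + 1) := by ring

/-- logarithms of prime powers -/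
noncomputable def QQ (y : ℕ) : ℝ := ∑ q ∈ (Icc 1 y).filter IsPrimePow, Real.log q

theorem log_sum (T x : ℕ) :
    ∑ n ∈ W (T + 1) x, Real.log n ≤ ∑ m ∈ W T x, QQ (x / m) := by
  have h1 : ∑ n ∈ W (T + 1) x, Real.log n =
      ∑ n ∈ W (T + 1) x, ∑ p ∈ n.primeFactors, Real.log ((p : ℝ) ^ n.factorization p) := by
    apply sum_congr rfl
    intro n hn
    rw [mem_W] at hn
    have hn0 : n ≠ 0 := by omega
    have : (n : ℝ) = ∏ p ∈ n.primeFactors, (p : ℝ) ^ n.factorization p := by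
      conv_lhs => rw [← Nat.prod_factorization_pow_eq_self hn0]
      rw [Finsupp.prod, Nat.support_factorization]
      push_cast
      rfl
    conv_lhs => rw [this]
    rw [Real.log_prod]
    intro p hp
    have := (Nat.prime_of_mem_primeFactors hp).pos
    positivity
  rw [h1, sum_sigma']
  unfold QQ
  rw [sum_sigma']
  refine sum_inj _ _ (fun a : (Σ _ : ℕ, ℕ) =>
    (⟨a.1 / a.2 ^ a.1.factorization a.2, a.2 ^ a.1.factorization a.2⟩ : Σ _ : ℕ, ℕ)) ?_ ?_ _ _ ?_ ?_
  · rintro ⟨n, p⟩ h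
    rw [mem_sigma, mem_W] at h
    obtain ⟨⟨⟨hn1, hnx⟩, hnT⟩, hp⟩ := h
    obtain ⟨hp1, hp2, hp3⟩ := Nat.mem_primeFactors.mp hp
    simp only at hn1 hnx hnT hp1 hp2
    obtain ⟨d1, d2, d3, d4, d5⟩ := decomp hn1 hp1 hp2
    rw [mem_sigma, mem_W, mem_filter, mem_Icc]
    simp only
    refine ⟨⟨⟨d3, (Nat.ordCompl_le n _).trans hnx⟩, by omega⟩,
      ⟨Nat.one_le_pow _ _ hp1.pos, ?_⟩, ?_⟩
    · rw [Nat.le_div_iff_mul_le (by omega), d1]
      exact hnx
    · exact hp1.isPrimePow.pow (by omega)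
  · rintro ⟨n, p⟩ h ⟨n', p'⟩ h' he
    rw [mem_coe, mem_sigma, mem_W] at h h'
    obtain ⟨⟨⟨hn1, hnx⟩, hnT⟩, hp⟩ := h
    obtain ⟨⟨⟨hn1', hnx'⟩, hnT'⟩, hp'⟩ := h'
    obtain ⟨hp1, hp2, hp3⟩ := Nat.mem_primeFactors.mp hp
    obtain ⟨hp1', hp2', hp3'⟩ := Nat.mem_primeFactors.mp hp'
    simp only at hn1 hnx hnT hp1 hp2 hn1' hnx' hnT' hp1' hp2'
    obtain ⟨d1, d2, d3, d4, d5⟩ := decomp hn1 hp1 hp2
    obtain ⟨d1', d2', d3', d4', d5'⟩ := decomp hn1' hp1' hp2'
    simp only [Sigma.mk.injEq, heq_eq_eq] at he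
    obtain ⟨e1, e2⟩ := he
    have en : n = n' := by
      rw [← d1, ← d1', e1, e2]
    have ep : p = p' := by
      have := congrArg Nat.minFac e2
      rwa [Nat.Prime.pow_minFac hp1 (by omega), Nat.Prime.pow_minFac hp1' (by omega)] at this
    rw [en, ep]
  · rintro ⟨n, p⟩ h
    simp only
    push_cast
    exact le_rfl
  · rintro ⟨m, q⟩ h
    exact Real.log_natCast_nonneg q

theorem QQ_le : ∃ C : ℝ, 0 < C ∧ ∀ y : ℕ, QQ y ≤ C * y := by
  obtain ⟨C, hC⟩ := Chebyshev.psi_sub_theta_le_mul_sqrt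
  have hl2 : 0 < Real.log 2 := Real.log_pos (by norm_num)
  have hl4 : 0 < Real.log 4 := Real.log_pos (by norm_num)
  refine ⟨Real.log 4 + 2 * |C| / Real.log 2, by positivity, fun y => ?_⟩
  have h0 := Finset.sum_filter_add_sum_filter_not ((Icc 1 y).filter IsPrimePow) Nat.Prime
    (fun q : ℕ => Real.log q)
  unfold QQ
  rw [← h0]
  have h1 : ∑ q ∈ ((Icc 1 y).filter IsPrimePow).filter Nat.Prime, Real.log q ≤
      Real.log 4 * y := by
    refine le_trans ?_ (Chebyshev.theta_le_log4_mul_x (Nat.cast_nonneg y))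
    unfold Chebyshev.theta
    rw [Nat.floor_natCast]
    apply sum_le_sum_of_subset_of_nonneg
    · intro q hq
      rw [mem_filter, mem_filter, mem_Icc] at hq
      rw [mem_filter, mem_Ioc]
      exact ⟨⟨hq.1.1.1, hq.1.1.2⟩, hq.2⟩
    · intro q _ _
      exact Real.log_natCast_nonneg q
  have h2 : ∑ q ∈ ((Icc 1 y).filter IsPrimePow).filter (fun q => ¬ q.Prime), Real.log q ≤
      Real.log y / Real.log 2 * (Chebyshev.psi y - Chebyshev.theta y) := by
    rw [Chebyshev.psi_sub_theta_eq_sum_not_prime, Nat.floor_natCast, mul_sum]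
    calc _ ≤ ∑ q ∈ ((Icc 1 y).filter IsPrimePow).filter (fun q => ¬ q.Prime),
          Real.log y / Real.log 2 * vonMangoldt q := by
          apply sum_le_sum
          intro q hq
          rw [mem_filter, mem_filter, mem_Icc] at hq
          obtain ⟨⟨⟨hq1, hqy⟩, hqp⟩, _⟩ := hq
          rw [vonMangoldt_apply, if_pos hqp]
          have a1 : Real.log q ≤ Real.log y :=
            Real.log_le_log (by exact_mod_cast hq1) (by exact_mod_cast hqy)
          have a2 : Real.log 2 ≤ Real.log q.minFac :=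
            Real.log_le_log (by norm_num) (by
              exact_mod_cast (Nat.minFac_prime hqp.one_lt.ne').two_le)
          have a3 : 0 ≤ Real.log y := Real.log_natCast_nonneg y
          calc Real.log q ≤ Real.log y := a1
            _ = Real.log y / Real.log 2 * Real.log 2 := by field_simp
            _ ≤ Real.log y / Real.log 2 * Real.log q.minFac := by gcongr
      _ ≤ _ := by
          apply sum_le_sum_of_subset_of_nonneg
          · intro q hq
            rw [mem_filter, mem_filter, mem_Icc] at hq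
            rw [mem_filter, mem_Ioc]
            exact ⟨⟨hq.1.1.1, hq.1.1.2⟩, hq.2⟩
          · intro q _ _
            have a3 : 0 ≤ Real.log y := Real.log_natCast_nonneg y
            have : 0 ≤ vonMangoldt q := vonMangoldt_nonneg
            positivity
  have h3 : Real.log y / Real.log 2 * (Chebyshev.psi y - Chebyshev.theta y) ≤
      2 * |C| / Real.log 2 * y := by
    have a1 : Real.log y ≤ 2 * Real.sqrt y := by
      rcases Nat.eq_zero_or_pos y with hy | hy
      · subst hy; simp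
      have hy' : (0 : ℝ) < y := by exact_mod_cast hy
      have b1 : Real.log (Real.sqrt y) = Real.log y / 2 := Real.log_sqrt hy'.le
      have b2 := Real.log_le_sub_one_of_pos (Real.sqrt_pos.mpr hy')
      linarith
    have a2 : Chebyshev.psi y - Chebyshev.theta y ≤ |C| * Real.sqrt y :=
      (hC y).trans (mul_le_mul_of_nonneg_right (le_abs_self C) (Real.sqrt_nonneg _))
    have a3 : 0 ≤ Real.log y := Real.log_natCast_nonneg y
    have a4 : Real.sqrt (y : ℝ) * Real.sqrt y = y := Real.mul_self_sqrt (Nat.cast_nonneg y)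
    calc Real.log y / Real.log 2 * (Chebyshev.psi y - Chebyshev.theta y)
        ≤ Real.log y / Real.log 2 * (|C| * Real.sqrt y) := by gcongr
      _ ≤ (2 * Real.sqrt y) / Real.log 2 * (|C| * Real.sqrt y) := by gcongr
      _ = 2 * |C| / Real.log 2 * (Real.sqrt y * Real.sqrt y) := by ring
      _ = _ := by rw [a4]
  rw [add_mul]
  linarith

theorem mert : ∃ C : ℝ, 0 ≤ C ∧ ∀ v : ℕ, 2 ≤ v →
    ∑ p ∈ (Icc 1 v).filter Nat.Prime, 1 / (p : ℝ) ≤ Real.log (Real.log v) + C := by
  obtain ⟨C, hC, h⟩ := Pool.Agent.Work.MP_b0c12c_nt_helper41.mertens2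
  refine ⟨1 + C / Real.log 2 + |Real.log (Real.log 2)|, ?_, fun v hv => ?_⟩
  · have : 0 < Real.log 2 := Real.log_pos (by norm_num)
    positivity
  have h1 := h 2 v le_rfl hv
  have h2 : ∑ p ∈ (Icc 1 v).filter Nat.Prime, 1 / (p : ℝ)
      ≤ 1 + ∑ p ∈ (Ioc 2 v).filter Nat.Prime, 1 / (p : ℝ) := by
    have h3 : (Icc 1 v).filter Nat.Prime ⊆ insert 2 ((Ioc 2 v).filter Nat.Prime) := by
      intro p hp
      rw [Finset.mem_filter, Finset.mem_Icc] at hp
      rw [Finset.mem_insert, Finset.mem_filter, Finset.mem_Ioc]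
      have := hp.2.two_le
      rcases Nat.eq_or_lt_of_le this with h4 | h4
      · exact Or.inl h4.symm
      · exact Or.inr ⟨⟨h4, hp.1.2⟩, hp.2⟩
    calc ∑ p ∈ (Icc 1 v).filter Nat.Prime, 1 / (p : ℝ)
        ≤ ∑ p ∈ insert 2 ((Ioc 2 v).filter Nat.Prime), 1 / (p : ℝ) :=
          Finset.sum_le_sum_of_subset_of_nonneg h3 fun _ _ _ => by positivity
      _ = 1 / ((2 : ℕ) : ℝ) + ∑ p ∈ (Ioc 2 v).filter Nat.Prime, 1 / (p : ℝ) := by
          rw [Finset.sum_insert]
          simp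
      _ ≤ _ := by
          have : 1 / ((2 : ℕ) : ℝ) ≤ 1 := by norm_num
          linarith
  have h5 := (abs_le.mp h1).2
  have h6 : -Real.log (Real.log ((2 : ℕ) : ℝ)) ≤ |Real.log (Real.log 2)| := by
    push_cast
    exact neg_le_abs _
  push_cast at h5 h6 ⊢
  linarith

theorem tele (x : ℕ) : ∑ n ∈ Icc 2 x, 1 / ((n : ℝ) * (n - 1)) ≤ 1 := by
  have key : ∀ k : ℕ, ∑ n ∈ Icc 2 (k + 1), 1 / ((n : ℝ) * (n - 1)) = 1 - 1 / ((k : ℝ) + 1) := by
    intro k
    induction k with
    | zero => simp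
    | succ k ih =>
      rw [Finset.sum_Icc_succ_top (by omega), ih]
      push_cast
      have h1 : (k : ℝ) + 1 ≠ 0 := by positivity
      have h2 : (k : ℝ) + 1 + 1 ≠ 0 := by positivity
      have h3 : (k : ℝ) + 1 + 1 - 1 ≠ 0 := by
        rw [add_sub_cancel_right]; exact h1
      rw [add_sub_cancel_right]
      field_simp
      ring
  rcases Nat.eq_zero_or_pos x with h | h
  · subst h; simp
  · obtain ⟨k, rfl⟩ : ∃ k, x = k + 1 := ⟨x - 1, by omega⟩
    rw [key]
    have : 0 ≤ 1 / ((k : ℝ) + 1) := by positivity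
    linarith

theorem geo (p x : ℕ) (hp : 2 ≤ p) :
    ∑ a ∈ Icc 1 x, 1 / (p : ℝ) ^ a ≤ 1 / (p : ℝ) + 1 / ((p : ℝ) * (p - 1)) := by
  have hp' : (2 : ℝ) ≤ p := by exact_mod_cast hp
  have h1 : (0 : ℝ) < p - 1 := by linarith
  have key : ∀ k : ℕ, ∑ a ∈ Icc 1 k, 1 / (p : ℝ) ^ a = 1 / ((p : ℝ) - 1) * (1 - 1 / (p : ℝ) ^ k) := by
    intro k
    induction k with
    | zero => simp
    | succ k ih =>
      rw [Finset.sum_Icc_succ_top (by omega), ih]
      have : (p : ℝ) ^ k ≠ 0 := by positivity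
      rw [pow_succ]
      field_simp
      ring
  rw [key]
  have h2 : 1 / (p : ℝ) + 1 / ((p : ℝ) * (p - 1)) = 1 / ((p : ℝ) - 1) := by
    field_simp
    ring
  rw [h2]
  have h3 : 0 ≤ 1 / (p : ℝ) ^ x := by positivity
  have h4 : 0 < 1 / ((p : ℝ) - 1) := by positivity
  nlinarith

theorem PP_le : ∃ C : ℝ, 0 ≤ C ∧ ∀ x : ℕ, 2 ≤ x → PP x ≤ Real.log (Real.log x) + C := by
  obtain ⟨C, hC, h⟩ := mert
  refine ⟨C + 1, by positivity, fun x hx => ?_⟩
  have h1 := h x hx
  have h2 := tele x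
  have h3 : PP x ≤ ∑ p ∈ (Icc 1 x).filter Nat.Prime, (1 / (p : ℝ) + 1 / ((p : ℝ) * (p - 1))) := by
    apply sum_le_sum
    intro p hp
    rw [mem_filter] at hp
    exact geo p x hp.2.two_le
  have h4 : ∑ p ∈ (Icc 1 x).filter Nat.Prime, 1 / ((p : ℝ) * (p - 1)) ≤
      ∑ n ∈ Icc 2 x, 1 / ((n : ℝ) * (n - 1)) := by
    apply sum_le_sum_of_subset_of_nonneg
    · intro p hp
      rw [mem_filter, mem_Icc] at hp
      rw [mem_Icc]
      exact ⟨hp.2.two_le, hp.1.2⟩
    · intro n hn _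
      rw [mem_Icc] at hn
      have : (2 : ℝ) ≤ n := by exact_mod_cast hn.1
      have : (0 : ℝ) ≤ n - 1 := by linarith
      positivity
  rw [sum_add_distrib] at h3
  linarith

theorem count_le (T x : ℕ) (hx : 2 ≤ x) : ((W T x).card : ℝ) ≤
    Real.sqrt x + 2 / Real.log x * ∑ n ∈ W T x, Real.log n := by
  have hx' : (1 : ℝ) < x := by exact_mod_cast (by omega : 1 < x)
  have hl : 0 < Real.log x := Real.log_pos hx'
  have h1 : ((W T x).card : ℝ) ≤ ∑ n ∈ W T x, ((if n ^ 2 ≤ x then (1 : ℝ) else 0) +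
      2 / Real.log x * Real.log n) := by
    rw [card_eq_sum_ones]
    push_cast
    apply sum_le_sum
    intro n hn
    rw [mem_W] at hn
    have hn0 : 0 ≤ 2 / Real.log x * Real.log n := by
      have := Real.log_natCast_nonneg n
      positivity
    split_ifs with hc
    · linarith
    · have h2 : Real.log x ≤ 2 * Real.log n := by
        have : ((2 : ℕ) : ℝ) * Real.log n = Real.log ((n : ℝ) ^ 2) := by
          rw [Real.log_pow]
        push_cast at this
        rw [this]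
        apply Real.log_le_log (by linarith)
        exact_mod_cast (by omega : x ≤ n ^ 2)
      rw [zero_add, div_mul_eq_mul_div, le_div_iff₀ hl, one_mul]
      exact h2
  rw [sum_add_distrib, ← mul_sum] at h1
  have h2 : ∑ n ∈ W T x, (if n ^ 2 ≤ x then (1 : ℝ) else 0) ≤ Real.sqrt x := by
    rw [← sum_filter, sum_const, nsmul_eq_mul, mul_one]
    have h3 : (W T x).filter (fun n => n ^ 2 ≤ x) ⊆ Icc 1 (Nat.sqrt x) := by
      intro n hn
      rw [mem_filter, mem_W] at hn
      rw [mem_Icc]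
      refine ⟨hn.1.1.1, ?_⟩
      rw [Nat.le_sqrt']
      exact hn.2
    have h4 := card_le_card h3
    rw [Nat.card_Icc] at h4
    have h5 : (((W T x).filter (fun n => n ^ 2 ≤ x)).card : ℝ) ≤ (Nat.sqrt x : ℕ) := by
      exact_mod_cast (by omega)
    refine h5.trans ?_
    exact Real.nat_sqrt_le_real_sqrt
  linarith

theorem main (T : ℕ) : ∃ K : ℝ, 0 < K ∧ ∃ X : ℕ, ∀ x : ℕ, X ≤ x →
    ((W T x).card : ℝ) ≤ K * x * (Real.log (Real.log x)) ^ T / Real.log x := by
  obtain ⟨C, hC, hQ⟩ := QQ_le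
  obtain ⟨D, hD, hP⟩ := PP_le
  obtain ⟨X, hX⟩ := exists_nat_ge (Real.exp (Real.exp 1))
  refine ⟨2 + 2 * C * (2 + D) ^ T, by positivity, X, fun x hx => ?_⟩
  have hxe : Real.exp (Real.exp 1) ≤ x := hX.trans (by exact_mod_cast hx)
  have hx0 : (0 : ℝ) < x := (Real.exp_pos _).trans_le hxe
  have hl1 : Real.exp 1 ≤ Real.log x := by
    rw [← Real.log_exp (Real.exp 1)]
    exact Real.log_le_log (Real.exp_pos _) hxe
  have hl0 : 0 < Real.log x := (Real.exp_pos _).trans_le hl1
  have hll : 1 ≤ Real.log (Real.log x) := by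
    rw [← Real.log_exp 1]
    exact Real.log_le_log (Real.exp_pos _) hl1
  have hx2 : 2 ≤ x := by
    have h1 : (1 : ℝ) < x := by
      by_contra h
      push Not at h
      have := Real.log_nonpos hx0.le h
      linarith
    have : 1 < x := by exact_mod_cast h1
    omega
  have hRHS : 0 ≤ (2 + 2 * C * (2 + D) ^ T) * x * (Real.log (Real.log x)) ^ T / Real.log x := by
    positivity
  rcases Nat.eq_zero_or_pos T with hT | hT
  · have : (W T x).card = 0 := by
      rw [card_eq_zero, eq_empty_iff_forall_notMem]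
      intro n hn
      rw [mem_W] at hn
      omega
    rw [this]
    simpa using hRHS
  obtain ⟨T, rfl⟩ : ∃ k, T = k + 1 := ⟨T - 1, by omega⟩
  have h1 := count_le (T + 1) x hx2
  have h2 := log_sum T x
  have h3 : ∑ m ∈ W T x, QQ (x / m) ≤ C * x * SS T x := by
    unfold SS
    rw [mul_sum]
    apply sum_le_sum
    intro m hm
    rw [mem_W] at hm
    have hm0 : (0 : ℝ) < m := by exact_mod_cast hm.1.1
    calc QQ (x / m) ≤ C * ((x / m : ℕ) : ℝ) := hQ _
      _ ≤ C * ((x : ℝ) / m) := by gcongr; exact Nat.cast_div_le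
      _ = _ := by ring
  have h4 := SS_le T x
  have h5 : 1 + PP x ≤ (2 + D) * Real.log (Real.log x) := by
    have := hP x hx2
    nlinarith
  have h6 : SS T x ≤ (2 + D) ^ (T + 1) * Real.log (Real.log x) ^ (T + 1) := by
    calc SS T x ≤ (1 + PP x) ^ T := h4
      _ ≤ ((2 + D) * Real.log (Real.log x)) ^ T := by
          have := PP_nonneg x
          gcongr
      _ ≤ ((2 + D) * Real.log (Real.log x)) ^ (T + 1) := by
          apply pow_le_pow_right₀ _ (by omega)
          nlinarith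
      _ = _ := mul_pow _ _ _
  have h7 : Real.sqrt x ≤ 2 * x / Real.log x := by
    have b1 : Real.log (Real.sqrt x) = Real.log x / 2 := Real.log_sqrt hx0.le
    have b2 := Real.log_le_sub_one_of_pos (Real.sqrt_pos.mpr hx0)
    have b3 : Real.sqrt (x : ℝ) * Real.sqrt x = x := Real.mul_self_sqrt hx0.le
    rw [le_div_iff₀ hl0]
    have b4 := Real.sqrt_nonneg (x : ℝ)
    nlinarith
  have h8 : (1 : ℝ) ≤ Real.log (Real.log x) ^ (T + 1) := one_le_pow₀ hll
  set L := Real.log (Real.log x) ^ (T + 1) with hL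
  have h9 : Real.sqrt x ≤ 2 * x * L / Real.log x := by
    refine h7.trans ?_
    apply div_le_div_of_nonneg_right _ hl0.le
    have : (0 : ℝ) ≤ 2 * x := by positivity
    nlinarith
  have h10 : 2 / Real.log x * ∑ n ∈ W (T + 1) x, Real.log n ≤
      2 / Real.log x * (C * x * ((2 + D) ^ (T + 1) * L)) := by
    apply mul_le_mul_of_nonneg_left _ (by positivity)
    refine (h2.trans h3).trans ?_
    apply mul_le_mul_of_nonneg_left h6 (by positivity)
  have h11 : (2 + 2 * C * (2 + D) ^ (T + 1)) * x * L / Real.log x =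
      2 * x * L / Real.log x + 2 / Real.log x * (C * x * ((2 + D) ^ (T + 1) * L)) := by
    field_simp
  rw [h11]
  linarith

end LANsec

open LANsec in
theorem blk_LAN : Stmt_LAN := by
  intro T
  obtain ⟨K, hK, X, hX⟩ := main T
  refine ⟨K, hK, X, fun x hx => ?_⟩
  have := hX x hx
  unfold W at this
  convert this using 3

end Pool.Agent.Work.MP_113634_trap
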