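import Pool.Agent.Work.MP_113634_trap.Interface

/-!
# Congruence traps: the closure property
-/

set_option autoImplicit false

namespace Pool.Agent.Work.MP_113634_trap

open Pool.Agent.Work.MP_113634_nt (usum sstar sstar_add self_le_usum usum_mul usum_prime)

theorem LEAK_primes (M : ℕ) (hM : 0 < M) : ∀ (t : List ℕ) (X : ℕ), (∀ c ∈ t, Nat.Coprime c M) →
    ∃ qs : List ℕ, qs.Nodup ∧ (∀ q ∈ qs, q.Prime ∧ X < q) ∧ qs.prod ≡ t.prod [MOD M] ∧
      (qs.map (fun c => c + 1)).prod ≡ (t.map (fun c => c + 1)).prod [MOD M] := by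
  intro t
  induction t with
  | nil => intro X _; exact ⟨[], by simp, by simp, by simp [Nat.ModEq], by simp [Nat.ModEq]⟩
  | cons c t ih =>
    intro X hc
    have hcc : Nat.Coprime c M := hc c (by simp)
    have : NeZero M := ⟨hM.ne'⟩
    have h1 : IsUnit ((c : ℕ) : ZMod M) := (ZMod.isUnit_iff_coprime c M).2 hcc
    obtain ⟨q, hqX, hq, hqc⟩ := Nat.forall_exists_prime_gt_and_eq_mod h1 X
    have hqc' : q ≡ c [MOD M] := (ZMod.natCast_eq_natCast_iff _ _ _).1 hqc
    obtain ⟨qs, h2, h3, h4, h5⟩ := ih q (fun d hd => hc d (List.mem_cons_of_mem _ hd))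
    refine ⟨q :: qs, ?_, ?_, ?_, ?_⟩
    · rw [List.nodup_cons]
      refine ⟨fun h => ?_, h2⟩
      exact lt_irrefl _ (h3 q h).2
    · intro d hd
      rcases List.mem_cons.1 hd with rfl | hd
      · exact ⟨hq, hqX⟩
      · exact ⟨(h3 d hd).1, hqX.trans (h3 d hd).2⟩
    · rw [List.prod_cons, List.prod_cons]
      exact hqc'.mul h4
    · rw [List.map_cons, List.map_cons, List.prod_cons, List.prod_cons]
      exact (hqc'.add_right 1).mul h5

theorem LEAK_le (A : ℕ) (hA : 0 < A) (xs : List ℕ) : A * xs.prod ≤ up A xs := by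
  unfold up
  refine Nat.mul_le_mul (self_le_usum hA) ?_
  induction xs with
  | nil => simp
  | cons c t ih =>
    rw [List.map_cons, List.prod_cons, List.prod_cons]
    exact Nat.mul_le_mul (Nat.le_succ c) ih

open Classical in
theorem stmt_LEAK (hUS3 : Stmt_US3) (hPAP : Stmt_PAP) : Stmt_LEAK := by
  intro M hM S hper hnot A hA xs hxs hcop hmem
  by_contra hcon
  apply hnot
  obtain ⟨h, t, rfl⟩ := List.exists_cons_of_ne_nil hxs
  obtain ⟨qs, q1, q2, q3, q4⟩ := LEAK_primes M hM t A (fun c hc => hcop c (List.mem_cons_of_mem _ hc))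
  set B : ℕ := A * qs.prod with hB
  have hqpos : 0 < qs.prod := by
    apply List.prod_pos
    intro q hq
    exact (q2 q hq).1.pos
  have hBpos : 0 < B := Nat.mul_pos hA hqpos
  have hqB : ∀ q ∈ qs, q ≤ B := by
    intro q hq
    have h1 : q ∣ qs.prod := List.dvd_prod hq
    exact Nat.le_of_dvd hBpos (h1.mul_left A)
  -- the leaking integers
  have key : ∀ p : ℕ, p.Prime → p ≡ h [MOD M] → B < p → B * p ∈ S ∧ sstar (B * p) ∉ S := by
    intro p hp hph hpB
    have e1 : B * p = A * (p :: qs).prod := by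
      rw [List.prod_cons, hB]; ring
    have hus : usum (A * (p :: qs).prod) = up A (p :: qs) := by
      refine hUS3 A hA (p :: qs) ?_ ?_
      · rw [List.nodup_cons]
        exact ⟨fun hq => absurd (hqB p hq) (not_le.2 hpB), q1⟩
      · intro q hq
        rcases List.mem_cons.1 hq with rfl | hq
        · refine ⟨hp, Nat.not_dvd_of_pos_of_lt hA (lt_of_le_of_lt ?_ hpB)⟩
          rw [hB]; exact Nat.le_mul_of_pos_right A hqpos
        · exact ⟨(q2 q hq).1, Nat.not_dvd_of_pos_of_lt hA (q2 q hq).2⟩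
    have c2 : A * (p :: qs).prod ≡ A * (h :: t).prod [MOD M] := by
      rw [List.prod_cons, List.prod_cons]
      exact (hph.mul q3).mul_left A
    have c1 : up A (p :: qs) ≡ up A (h :: t) [MOD M] := by
      unfold up
      rw [List.map_cons, List.map_cons, List.prod_cons, List.prod_cons]
      exact ((hph.add_right 1).mul q4).mul_left _
    constructor
    · rw [e1]; exact hper _ _ c2.symm hmem
    · intro hS
      apply hcon
      refine hper _ _ ?_ hS
      have e2 : sstar (B * p) = up A (p :: qs) - A * (p :: qs).prod := by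
        rw [e1]; unfold Pool.Agent.Work.MP_113634_nt.sstar; rw [hus]
      rw [e2]
      refine Nat.ModEq.add_right_cancel c2 ?_
      rw [Nat.sub_add_cancel (LEAK_le A hA _), Nat.sub_add_cancel (LEAK_le A hA _)]
      exact c1
  -- counting
  have count : ∀ x : ℕ, (((Finset.Icc 1 (x / B)).filter fun p => p.Prime ∧ p ≡ h [MOD M]).card : ℝ) ≤
      (((Finset.Icc 1 x).filter fun n => n ∈ S ∧ sstar n ∉ S).card : ℝ) + B := by
    intro x
    have h1 : ((Finset.Icc 1 (x / B)).filter fun p => p.Prime ∧ p ≡ h [MOD M]) ⊆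
        ((Finset.Icc 1 (x / B)).filter fun p => (p.Prime ∧ p ≡ h [MOD M]) ∧ B < p) ∪ Finset.Icc 1 B := by
      intro p hp
      rw [Finset.mem_filter, Finset.mem_Icc] at hp
      rw [Finset.mem_union, Finset.mem_filter, Finset.mem_Icc, Finset.mem_Icc]
      by_cases hpB : B < p
      · exact Or.inl ⟨hp.1, hp.2, hpB⟩
      · exact Or.inr ⟨hp.1.1, not_lt.1 hpB⟩
    have h2 : ((Finset.Icc 1 (x / B)).filter fun p => (p.Prime ∧ p ≡ h [MOD M]) ∧ B < p).card ≤
        ((Finset.Icc 1 x).filter fun n => n ∈ S ∧ sstar n ∉ S).card := by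
      refine Finset.card_le_card_of_injOn (fun p => B * p) ?_ ?_
      · intro p hp
        have hp' := Finset.mem_coe.1 hp
        rw [Finset.mem_filter, Finset.mem_Icc] at hp'
        rw [Finset.mem_coe, Finset.mem_filter, Finset.mem_Icc]
        refine ⟨⟨Nat.mul_pos hBpos hp'.2.1.1.pos, ?_⟩, key p hp'.2.1.1 hp'.2.1.2 hp'.2.2⟩
        calc B * p ≤ B * (x / B) := Nat.mul_le_mul_left _ hp'.1.2
          _ ≤ x := Nat.mul_div_le x B
      · intro p _ q _ hpq
        exact Nat.eq_of_mul_eq_mul_left hBpos hpq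
    have h3 := (Finset.card_le_card h1).trans (Finset.card_union_le _ _)
    rw [Nat.card_Icc, Nat.add_sub_cancel] at h3
    have h4 : ((Finset.Icc 1 (x / B)).filter fun p => p.Prime ∧ p ≡ h [MOD M]).card ≤
        ((Finset.Icc 1 x).filter fun n => n ∈ S ∧ sstar n ∉ S).card + B := by omega
    exact_mod_cast h4
  obtain ⟨c, hc, X0, hX0⟩ := hPAP M h hM (hcop h (by simp))
  have hBR : (0 : ℝ) < B := by exact_mod_cast hBpos
  have hlog : ∀ᶠ x : ℕ in Filter.atTop, Real.log x ≤ (c / (4 * B ^ 2)) * x := by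
    have h1 := Real.isLittleO_log_id_atTop.def (show (0 : ℝ) < c / (4 * B ^ 2) by positivity)
    have h2 := tendsto_natCast_atTop_atTop (R := ℝ) |>.eventually h1
    filter_upwards [h2, Filter.eventually_ge_atTop 1] with x hx hx1
    have hx1' : (1 : ℝ) ≤ x := by exact_mod_cast hx1
    rw [Real.norm_of_nonneg (Real.log_nonneg hx1'), id, Real.norm_of_nonneg (by linarith)] at hx
    exact hx
  obtain ⟨X1, hX1⟩ := Filter.eventually_atTop.1 hlog
  refine ⟨c / (4 * B), by positivity, max X1 (B * (max X0 2)), ?_⟩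
  intro x hx
  have hxX1 : X1 ≤ x := (le_max_left _ _).trans hx
  have hxB : B * (max X0 2) ≤ x := (le_max_right _ _).trans hx
  have hy : max X0 2 ≤ x / B := by
    rw [Nat.le_div_iff_mul_le hBpos, mul_comm]; exact hxB
  have hy2 : 2 ≤ x / B := (le_max_right _ _).trans hy
  have h1 := hX0 (x / B) ((le_max_left _ _).trans hy)
  have h2 := count x
  have h3 := hX1 x hxX1
  have hyx : x / B ≤ x := Nat.div_le_self _ _
  have hyR : (2 : ℝ) ≤ ((x / B : ℕ) : ℝ) := by exact_mod_cast hy2
  have hyxR : ((x / B : ℕ) : ℝ) ≤ x := by exact_mod_cast hyx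
  have hL : 0 < Real.log ((x / B : ℕ) : ℝ) := Real.log_pos (by linarith)
  have hL2 : Real.log ((x / B : ℕ) : ℝ) ≤ Real.log x := Real.log_le_log (by linarith) hyxR
  have hLx : 0 < Real.log (x : ℝ) := lt_of_lt_of_le hL hL2
  have hlow : (x : ℝ) ≤ 2 * B * ((x / B : ℕ) : ℝ) := by
    have e1 : x < B * (x / B + 1) := by
      have := Nat.lt_mul_div_succ x hBpos
      exact this
    have e2 : (x : ℝ) < B * (((x / B : ℕ) : ℝ) + 1) := by exact_mod_cast e1
    nlinarith
  have h4 : c * x / (2 * B) / Real.log x ≤ c * ((x / B : ℕ) : ℝ) / Real.log ((x / B : ℕ) : ℝ) := by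
    have e3 : c * x / (2 * B) ≤ c * ((x / B : ℕ) : ℝ) := by
      rw [div_le_iff₀ (by positivity)]
      nlinarith
    calc c * x / (2 * B) / Real.log x ≤ c * ((x / B : ℕ) : ℝ) / Real.log x :=
          div_le_div_of_nonneg_right e3 hLx.le
      _ ≤ _ := div_le_div_of_nonneg_left (by positivity) hL hL2
  have h5 : c / (4 * B) * x / Real.log x + B ≤ c * x / (2 * B) / Real.log x := by
    have e4 : c / (4 * B) * x / Real.log x + B = (c / (4 * B) * x + B * Real.log x) / Real.log x := by
      field_simp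
    rw [e4]
    refine div_le_div_of_nonneg_right ?_ hLx.le
    have e5 : B * Real.log x ≤ B * ((c / (4 * B ^ 2)) * x) := mul_le_mul_of_nonneg_left h3 hBR.le
    have e6 : (B : ℝ) * ((c / (4 * B ^ 2)) * x) = c / (4 * B) * x := by field_simp
    have e7 : c * x / (2 * B) = c / (4 * B) * x + c / (4 * B) * x := by field_simp; ring
    rw [e7]
    linarith
  linarith

end Pool.Agent.Work.MP_113634_trap
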