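import Pool.Agent.Work.MP_113634_trap.Interface

/-!
# Congruence traps: small values of `s*(n)/n`
-/

set_option autoImplicit false

namespace Pool.Agent.Work.MP_113634_trap

open Pool.Agent.Work.MP_113634_nt (usum sstar sstar_add self_le_usum usum_mul usum_prime)

/-- Dirichlet's theorem -/
theorem dirichlet (M c : ℕ) (hM : 0 < M) (hc : Nat.Coprime c M) (X : ℕ) :
    ∃ p : ℕ, p.Prime ∧ X < p ∧ p ≡ c [MOD M] := by
  have : NeZero M := ⟨hM.ne'⟩
  have h1 : IsUnit ((c : ℕ) : ZMod M) := (ZMod.isUnit_iff_coprime c M).2 hc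
  obtain ⟨p, hp, hpp, hpc⟩ := Nat.forall_exists_prime_gt_and_eq_mod h1 X
  exact ⟨p, hpp, hp, (ZMod.natCast_eq_natCast_iff _ _ _).1 hpc⟩

theorem stmt_LIM : Stmt_LIM := by
  intro M hM S hper A c hA hc hAc ε hε hle X
  obtain ⟨B, hB⟩ := exists_nat_gt ((3 / 2 + ε) / ε)
  obtain ⟨p, hp, hpX, hpc⟩ := dirichlet M c hM hc (max (max X A) B)
  have hpX' : X < p := lt_of_le_of_lt (le_trans (le_max_left _ _) (le_max_left _ _)) hpX
  have hpA : A < p := lt_of_le_of_lt (le_trans (le_max_right _ _) (le_max_left _ _)) hpX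
  have hpB : B < p := lt_of_le_of_lt (le_max_right _ _) hpX
  have hcop : A.Coprime p := by
    rw [Nat.coprime_comm]
    exact (Nat.Prime.coprime_iff_not_dvd hp).2 (Nat.not_dvd_of_pos_of_lt hA hpA)
  have hpos : 0 < A * p := Nat.mul_pos hA hp.pos
  have h1 := sstar_add hpos
  rw [usum_mul hA hp.pos hcop, usum_prime hp] at h1
  refine ⟨A * p, ?_, hper _ _ (hpc.symm.mul_left A) hAc, ?_⟩
  · exact le_trans hpX'.le (Nat.le_mul_of_pos_left p hA)
  · have h2 : (sstar (A * p) : ℝ) + A * p = usum A * (p + 1) := by exact_mod_cast h1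
    have hpB' : (B : ℝ) < p := by exact_mod_cast hpB
    have h3 : (3 / 2 + ε) < ε * p := by
      rw [div_lt_iff₀ hε] at hB
      nlinarith
    have hA' : (0 : ℝ) < A := by exact_mod_cast hA
    have hp' : (0 : ℝ) < p := by exact_mod_cast hp.pos
    push_cast
    have h4 : (usum A : ℝ) * (p + 1) ≤ (3 / 2 + ε) * A * (p + 1) :=
      mul_le_mul_of_nonneg_right hle (by linarith)
    have h5 : (3 / 2 + ε) * A ≤ ε * p * A := mul_le_mul_of_nonneg_right h3.le hA'.le
    nlinarith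

end Pool.Agent.Work.MP_113634_trap
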