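import Pool.Agent.Work.MP_113634_trap.Interface

/-!
# Congruence traps: the local move
-/

set_option autoImplicit false

namespace Pool.Agent.Work.MP_113634_trap

open Pool.Agent.Work.MP_113634_nt (usum sstar sstar_add self_le_usum usum_mul usum_prime)

theorem LM_prod_le (xs : List ℕ) : xs.prod ≤ (xs.map (fun c => c + 1)).prod := by
  induction xs with
  | nil => simp
  | cons c xs ih =>
    rw [List.prod_cons, List.map_cons, List.prod_cons]
    exact Nat.mul_le_mul (Nat.le_succ c) ih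

theorem LM_le_up (A : ℕ) (hA : 0 < A) (xs : List ℕ) : A * xs.prod ≤ up A xs :=
  Nat.mul_le_mul (self_le_usum hA) (LM_prod_le xs)

theorem LM_lift (P R : ℕ) (hPR : P.Coprime R) (a r : ℕ) (ha : a.Coprime P) (hr : r.Coprime R) :
    ∃ c : ℕ, c.Coprime (P * R) ∧ c ≡ a [MOD P] ∧ c ≡ r [MOD R] := by
  obtain ⟨c, h1, h2⟩ := Nat.chineseRemainder hPR a r
  refine ⟨c, Nat.Coprime.mul_right ?_ ?_, h1, h2⟩
  · rw [Nat.Coprime, h1.gcd_eq]
    exact ha
  · rw [Nat.Coprime, h2.gcd_eq]
    exact hr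

theorem LM_tail (P R : ℕ) (hPR : P.Coprime R) (t : List ℕ) : (∀ c ∈ t, c.Coprime P) →
    ∃ t' : List ℕ, (∀ c ∈ t', c.Coprime (P * R)) ∧ t'.prod ≡ t.prod [MOD P] ∧
      t'.prod ≡ 1 [MOD R] ∧
      (t'.map (fun c => c + 1)).prod ≡ (t.map (fun c => c + 1)).prod [MOD P] := by
  induction t with
  | nil => intro _; exact ⟨[], by simp, Nat.ModEq.refl _, Nat.ModEq.refl _, Nat.ModEq.refl _⟩
  | cons a t ih =>
    intro h
    obtain ⟨t', h1, h2, h3, h4⟩ := ih fun c hc => h c (List.mem_cons_of_mem a hc)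
    obtain ⟨c, hc1, hc2, hc3⟩ := LM_lift P R hPR a 1 (h a List.mem_cons_self)
      (Nat.coprime_one_left R)
    refine ⟨c :: t', ?_, ?_, ?_, ?_⟩
    · intro d hd
      rw [List.mem_cons] at hd
      rcases hd with rfl | hd
      · exact hc1
      · exact h1 d hd
    · rw [List.prod_cons, List.prod_cons]
      exact hc2.mul h2
    · rw [List.prod_cons]
      exact hc3.mul h3
    · rw [List.map_cons, List.map_cons, List.prod_cons, List.prod_cons]
      exact (hc2.add_right 1).mul h4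

theorem stmt_LM : Stmt_LM := by
  intro P R hP hR hPR S hper hcl A x hA hx hAx xs hlen hxs hprod
  obtain ⟨a, b, t, rfl⟩ : ∃ a b t, xs = a :: b :: t := by
    match xs, hlen with
    | a :: b :: t, _ => exact ⟨a, b, t, rfl⟩
  have hR1 : (R - 1).Coprime R := by
    obtain ⟨m, rfl⟩ : ∃ m, R = m + 1 := ⟨R - 1, by omega⟩
    rw [Nat.add_sub_cancel]
    exact Nat.coprime_self_add_right.2 (Nat.coprime_one_right m)
  have hxR : x.Coprime R := Nat.Coprime.coprime_mul_left_right hx
  obtain ⟨a', ha1, ha2, ha3⟩ := LM_lift P R hPR a (R - 1) (hxs a List.mem_cons_self) hR1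
  obtain ⟨b', hb1, hb2, hb3⟩ := LM_lift P R hPR b (x * (R - 1))
    (hxs b (List.mem_cons_of_mem a List.mem_cons_self)) (Nat.Coprime.mul_left hxR hR1)
  obtain ⟨t', ht1, ht2, ht3, ht4⟩ := LM_tail P R hPR t fun c hc =>
    hxs c (List.mem_cons_of_mem a (List.mem_cons_of_mem b hc))
  have hprodP : (a' :: b' :: t').prod ≡ (a :: b :: t).prod [MOD P] := by
    simp only [List.prod_cons]
    exact ha2.mul (hb2.mul ht2)
  have hmapP : ((a' :: b' :: t').map (fun c => c + 1)).prod ≡
      ((a :: b :: t).map (fun c => c + 1)).prod [MOD P] := by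
    simp only [List.prod_cons, List.map_cons]
    exact (ha2.add_right 1).mul ((hb2.add_right 1).mul ht4)
  have ha3' : a' + 1 ≡ 0 [MOD R] := by
    have h1 := ha3.add_right 1
    rw [Nat.sub_add_cancel hR] at h1
    exact h1.trans (Nat.modEq_zero_iff_dvd.2 dvd_rfl)
  have hprodR : (a' :: b' :: t').prod ≡ x [MOD R] := by
    simp only [List.prod_cons]
    have h1 : a' * (b' * t'.prod) ≡ (R - 1) * (x * (R - 1) * 1) [MOD R] :=
      ha3.mul (hb3.mul ht3)
    refine h1.trans ?_
    obtain ⟨m, rfl⟩ : ∃ m, R = m + 1 := ⟨R - 1, by omega⟩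
    rw [Nat.add_sub_cancel]
    have h2 : m * (x * m * 1) + (m + 1) * (2 * x) = x + (m + 1) * (x * (m + 1)) := by ring
    have h3 : m * (x * m * 1) + (m + 1) * (2 * x) ≡ m * (x * m * 1) + 0 [MOD m + 1] :=
      (Nat.modEq_zero_iff_dvd.2 (dvd_mul_right _ _)).add_left _
    have h4 : x + (m + 1) * (x * (m + 1)) ≡ x + 0 [MOD m + 1] :=
      (Nat.modEq_zero_iff_dvd.2 (dvd_mul_right _ _)).add_left _
    rw [h2] at h3
    exact (h3.symm.trans h4)
  have hmem : A * (a' :: b' :: t').prod ∈ S := by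
    refine hper (A * x) _ ?_ hAx
    refine (Nat.modEq_and_modEq_iff_modEq_mul hPR).1 ⟨?_, ?_⟩
    · exact hprod.symm.trans (hprodP.symm.mul_left A)
    · exact hprodR.symm.mul_left A
  have hcop : ∀ c ∈ a' :: b' :: t', Nat.Coprime c (P * R) := by
    intro c hc
    simp only [List.mem_cons] at hc
    rcases hc with rfl | rfl | hc
    · exact ha1
    · exact hb1
    · exact ht1 c hc
  have h1 := hcl A hA (a' :: b' :: t') (by simp) hcop hmem
  have h2 := Nat.sub_add_cancel (LM_le_up A hA (a' :: b' :: t'))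
  have h3 := Nat.sub_add_cancel (LM_le_up A hA (a :: b :: t))
  refine ⟨_, h1, ?_, ?_⟩
  · have h4 : up A (a' :: b' :: t') - A * (a' :: b' :: t').prod + A * x ≡
        up A (a' :: b' :: t') - A * (a' :: b' :: t').prod + A * (a' :: b' :: t').prod [MOD R] :=
      (hprodR.symm.mul_left A).add_left _
    rw [h2] at h4
    refine Nat.modEq_zero_iff_dvd.1 (h4.trans ?_)
    unfold up
    simp only [List.map_cons, List.prod_cons]
    have h5 : (a' + 1) * ((b' + 1) * (t'.map (fun c => c + 1)).prod) ≡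
        0 * ((b' + 1) * (t'.map (fun c => c + 1)).prod) [MOD R] := ha3'.mul_right _
    rw [zero_mul] at h5
    have h6 := h5.mul_left (usum A)
    rwa [mul_zero] at h6
  · have h4 : up A (a' :: b' :: t') ≡ up A (a :: b :: t) [MOD P] := by
      unfold up
      exact hmapP.mul_left _
    have h5 : A * (a' :: b' :: t').prod ≡ A * (a :: b :: t).prod [MOD P] := hprodP.mul_left A
    refine Nat.ModEq.add_right_cancel h5 ?_
    rw [h2, h3]
    exact h4

end Pool.Agent.Work.MP_113634_trap
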