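import Pool.Agent.Work.MP_113634_trap.Interface

/-!
# The numerical lemma
-/

set_option autoImplicit false

namespace Pool.Agent.Work.MP_113634_trap

theorem NUM_one (l v : ℕ) (hl : 3 ≤ l) (hv : 1 ≤ v) : 9 * (l ^ v + 1) ≤ 4 * l ^ (v + 1) := by
  have h1 : 3 ≤ l ^ v := hl.trans (Nat.le_self_pow (by omega) l)
  rw [pow_succ]
  nlinarith

theorem NUM_two (l v : ℕ) (hl : 5 ≤ l) (hv : 1 ≤ v) : 25 * (l ^ v + 1) ≤ 6 * l ^ (v + 1) := by
  have h1 : 5 ≤ l ^ v := hl.trans (Nat.le_self_pow (by omega) l)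
  rw [pow_succ]
  nlinarith

theorem NUM_three (a : ℕ) : ¬ 8 ∣ 3 ^ a + 1 := by
  have h : 3 ^ a % 8 = 1 ∨ 3 ^ a % 8 = 3 := by
    induction a with
    | zero => left; rfl
    | succ a ih => rw [pow_succ]; omega
  omega

theorem stmt_NUM : Stmt_NUM := by
  classical
  intro T K v hT hK hTK hodd hKd h2
  set W := ∏ q ∈ T, (q ^ v q + 1) with hW
  have hWpos : 0 < W := Finset.prod_pos fun q _ => Nat.succ_pos _
  set To := T.erase 2 with hTo
  have hTo3 : ∀ l ∈ To, 3 ≤ l ∧ 1 ≤ v l ∧ l.Prime ∧ l ≠ 2 ∧ l ∈ T := by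
    intro l hl
    obtain ⟨h3, h4⟩ := Finset.mem_erase.mp hl
    obtain ⟨h5, h6⟩ := hT l h4
    have := h5.two_le
    exact ⟨by omega, h6, h5, h3, h4⟩
  set PT := ∏ l ∈ To, l ^ (v l + 1) with hPT
  set PK := ∏ l ∈ K, l with hPK
  set Wo := ∏ q ∈ To, (q ^ v q + 1) with hWo
  have hWopos : 0 < Wo := Finset.prod_pos fun q _ => Nat.succ_pos _
  have hPTdvd : PT ∣ W := by
    refine Finset.prod_dvd_of_isRelPrime ?_ fun l hl => hodd l (hTo3 l hl).2.2.2.2
      (hTo3 l hl).2.2.2.1
    intro l hl l' hl' hne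
    show IsRelPrime (l ^ (v l + 1)) (l' ^ (v l' + 1))
    rw [← Nat.coprime_iff_isRelPrime]
    exact Nat.Coprime.pow _ _ ((Nat.coprime_primes (hTo3 l hl).2.2.1 (hTo3 l' hl').2.2.1).2 hne)
  have hPKdvd : PK ∣ W := by
    refine Finset.prod_dvd_of_isRelPrime ?_ fun l hl => hKd l hl
    intro l hl l' hl' hne
    show IsRelPrime l l'
    rw [← Nat.coprime_iff_isRelPrime]
    exact (Nat.coprime_primes (hK l hl).1 (hK l' hl').1).2 hne
  have hcop : PT.Coprime PK := by
    refine Nat.coprime_prod_left_iff.mpr fun l hl => Nat.coprime_prod_right_iff.mpr fun l' hl' => ?_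
    refine Nat.Coprime.pow_left _ ((Nat.coprime_primes (hTo3 l hl).2.2.1 (hK l' hl').1).2 ?_)
    rintro rfl
    exact Finset.disjoint_left.mp hTK (hTo3 l hl).2.2.2.2 hl'
  have hP : PT * PK ∣ W := hcop.mul_dvd_of_dvd_of_dvd hPTdvd hPKdvd
  have hWoPT : Wo ≤ PT := by
    refine Finset.prod_le_prod' fun l hl => ?_
    have := NUM_one l (v l) (hTo3 l hl).1 (hTo3 l hl).2.1
    omega
  by_cases hT2 : 2 ∈ T
  · have hWW : W = (2 ^ v 2 + 1) * Wo := (Finset.mul_prod_erase T (fun q => q ^ v q + 1) hT2).symm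
    have hv2 := (hT 2 hT2).2
    obtain ⟨u, hu⟩ : ∃ u, v 2 = u + 1 := ⟨v 2 - 1, by omega⟩
    have h2' := h2 hT2
    rw [hu, Nat.add_sub_cancel] at h2'
    have hu1 : 1 ≤ 2 ^ u := Nat.one_le_two_pow
    have hc2 : (2 ^ u).Coprime (PT * PK) := by
      refine Nat.Coprime.pow_left _ (Nat.Coprime.mul_right ?_ ?_)
      · refine Nat.coprime_prod_right_iff.mpr fun l hl => ?_
        exact Nat.Coprime.pow_right _ ((Nat.coprime_primes Nat.prime_two (hTo3 l hl).2.2.1).2
          (hTo3 l hl).2.2.2.1.symm)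
      · refine Nat.coprime_prod_right_iff.mpr fun l hl => ?_
        exact (Nat.coprime_primes Nat.prime_two (hK l hl).1).2 (hK l hl).2.symm
    have hbig : 2 ^ u * (PT * PK) ≤ W * 2 ^ K.card :=
      Nat.le_of_dvd (by positivity)
        (hc2.mul_dvd_of_dvd_of_dvd h2' (Dvd.dvd.mul_right hP _))
    have hPK3 : 3 ^ K.card ≤ PK := by
      rw [hPK]
      refine Finset.pow_card_le_prod _ _ _ fun l hl => ?_
      have := (hK l hl).1.two_le
      have := (hK l hl).2
      omega
    have hkey : PT * 3 ^ K.card ≤ 3 * 2 ^ K.card * Wo := by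
      have h3 : 2 ^ u * (PT * 3 ^ K.card) ≤ 2 ^ u * (3 * 2 ^ K.card * Wo) := by
        calc 2 ^ u * (PT * 3 ^ K.card) ≤ 2 ^ u * (PT * PK) :=
              Nat.mul_le_mul_left _ (Nat.mul_le_mul_left _ hPK3)
          _ ≤ W * 2 ^ K.card := hbig
          _ = (2 ^ (u + 1) + 1) * (Wo * 2 ^ K.card) := by rw [hWW, hu]; ring
          _ ≤ (3 * 2 ^ u) * (Wo * 2 ^ K.card) := by
              refine Nat.mul_le_mul_right _ ?_
              rw [pow_succ]
              omega
          _ = _ := by ring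
      exact Nat.le_of_mul_le_mul_left h3 (by positivity)
    have h23 : 2 ^ K.card ≤ 3 ^ K.card := Nat.pow_le_pow_left (by norm_num) _
    have hk2 : 0 < 2 ^ K.card := by positivity
    -- no prime `≥ 5`
    have hsub : ∀ l ∈ To, l = 3 := by
      intro l hl
      by_contra hne
      have h5 : 5 ≤ l := by
        have h3 := (hTo3 l hl).1
        have h4 : l ≠ 4 := by
          rintro rfl
          exact absurd (hTo3 4 hl).2.2.1 (by norm_num)
        omega
      have e1 : PT = l ^ (v l + 1) * ∏ q ∈ To.erase l, q ^ (v q + 1) :=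
        (Finset.mul_prod_erase To (fun q => q ^ (v q + 1)) hl).symm
      have e2 : Wo = (l ^ v l + 1) * ∏ q ∈ To.erase l, (q ^ v q + 1) :=
        (Finset.mul_prod_erase To (fun q => q ^ v q + 1) hl).symm
      have e3 : ∏ q ∈ To.erase l, (q ^ v q + 1) ≤ ∏ q ∈ To.erase l, q ^ (v q + 1) := by
        refine Finset.prod_le_prod' fun q hq => ?_
        have hq' := Finset.mem_of_mem_erase hq
        have := NUM_one q (v q) (hTo3 q hq').1 (hTo3 q hq').2.1
        omega
      have e4 : 25 * Wo ≤ 6 * PT := by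
        rw [e1, e2]
        calc 25 * ((l ^ v l + 1) * ∏ q ∈ To.erase l, (q ^ v q + 1))
            = (25 * (l ^ v l + 1)) * ∏ q ∈ To.erase l, (q ^ v q + 1) := by ring
          _ ≤ (6 * l ^ (v l + 1)) * ∏ q ∈ To.erase l, q ^ (v q + 1) :=
              Nat.mul_le_mul (NUM_two l (v l) h5 (hTo3 l hl).2.1) e3
          _ = _ := by ring
      have e5 : PT * 2 ^ K.card ≤ 3 * 2 ^ K.card * Wo := (Nat.mul_le_mul_left _ h23).trans hkey
      have e6 : PT ≤ 3 * Wo := by
        refine Nat.le_of_mul_le_mul_right ?_ hk2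
        calc PT * 2 ^ K.card ≤ 3 * 2 ^ K.card * Wo := e5
          _ = _ := by ring
      omega
    by_cases h3 : 3 ∈ T
    · -- `T = {2, 3}`
      have hTo' : To = {3} := by
        ext l
        rw [Finset.mem_singleton]
        exact ⟨hsub l, fun h => by rw [h]; exact Finset.mem_erase.mpr ⟨by norm_num, h3⟩⟩
      have hWo' : Wo = 3 ^ v 3 + 1 := by rw [hWo, hTo', Finset.prod_singleton]
      have hPT' : PT = 3 ^ (v 3 + 1) := by rw [hPT, hTo', Finset.prod_singleton]
      have hv3 := (hT 3 h3).2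
      have ha3 : 3 ≤ 3 ^ v 3 := Nat.le_self_pow (by omega) 3
      have hK0 : K.card = 0 := by
        by_contra hne
        obtain ⟨k, hk⟩ := Nat.exists_eq_succ_of_ne_zero hne
        rw [hPT', hWo', hk, Nat.succ_eq_add_one, pow_succ, pow_succ 3 k, pow_succ 2 k] at hkey
        have h23k : 2 ^ k ≤ 3 ^ k := Nat.pow_le_pow_left (by norm_num) _
        have hk1 : 1 ≤ 2 ^ k := Nat.one_le_two_pow
        generalize 3 ^ v 3 = a at *
        generalize 3 ^ k = b at *
        generalize 2 ^ k = c at *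
        have e1 : a * 3 * (c * 3) ≤ a * 3 * (b * 3) := by gcongr
        have e2 : a * c * 9 ≤ (a + 1) * c * 6 := by nlinarith
        have e3 : a * 9 ≤ (a + 1) * 6 := by
          refine Nat.le_of_mul_le_mul_right ?_ hk1
          calc a * 9 * c = a * c * 9 := by ring
            _ ≤ (a + 1) * c * 6 := e2
            _ = _ := by ring
        omega
      have hTT : T = {2, 3} := by
        rw [← Finset.insert_erase hT2, ← hTo, hTo']
      rw [hK0, pow_zero, mul_one, hWW, hWo', hu] at h2'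
      have h2odd : (2 ^ u).Coprime (2 ^ (u + 1) + 1) := by
        refine Nat.Coprime.pow_left _ ?_
        rw [Nat.coprime_two_left, pow_succ]
        exact ⟨2 ^ u, by ring⟩
      have h4 : 2 ^ u ∣ 3 ^ v 3 + 1 := h2odd.dvd_of_dvd_mul_left h2'
      have hu2 : u ≤ 2 := by
        by_contra hcon
        push Not at hcon
        have : 2 ^ 3 ∣ 2 ^ u := pow_dvd_pow 2 hcon
        exact NUM_three (v 3) (by simpa using this.trans h4)
      have h5 : 3 ^ (v 3 + 1) ∣ 2 ^ (u + 1) + 1 := by
        have h6 := hodd 3 h3 (by norm_num)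
        rw [hWW, hWo', hu] at h6
        refine Nat.Coprime.dvd_of_dvd_mul_right ?_ h6
        refine Nat.Coprime.pow_left _ ?_
        rw [Nat.Prime.coprime_iff_not_dvd Nat.prime_three]
        intro h7
        have h8 : 3 ∣ 3 ^ v 3 := dvd_pow_self 3 (by omega)
        have h9 : 3 ∣ 1 := (Nat.dvd_add_right h8).mp h7
        omega
      have h6 : 3 ^ (v 3 + 1) ≤ 2 ^ (u + 1) + 1 := Nat.le_of_dvd (by positivity) h5
      have h7 : 2 ^ (u + 1) + 1 ≤ 9 := by
        have : 2 ^ (u + 1) ≤ 2 ^ 3 := Nat.pow_le_pow_right (by norm_num) (by omega)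
        omega
      have h8 : v 3 = 1 := by
        by_contra hne
        have : 3 ^ 3 ≤ 3 ^ (v 3 + 1) := Nat.pow_le_pow_right (by norm_num) (by omega)
        omega
      have h9 : u = 2 := by
        rw [h8] at h6
        by_contra hne
        have : 2 ^ (u + 1) ≤ 2 ^ 2 := Nat.pow_le_pow_right (by norm_num) (by omega)
        omega
      have hprod : ∏ q ∈ T, q ^ v q = 2 ^ v 2 * 3 ^ v 3 := by
        rw [hTT, Finset.prod_pair (by norm_num)]
      rw [hWW, hWo', hprod, hu, h8, h9]
      norm_num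
    · -- `T = {2}`
      have hTo' : To = ∅ := by
        rw [Finset.eq_empty_iff_forall_notMem]
        intro l hl
        have := hsub l hl
        rw [this] at hl
        exact h3 (Finset.mem_of_mem_erase hl)
      have hTT : T = {2} := by
        rw [← Finset.insert_erase hT2, ← hTo, hTo']
        rfl
      have hprod : ∏ q ∈ T, q ^ v q = 2 ^ v 2 := by rw [hTT, Finset.prod_singleton]
      have hWo' : Wo = 1 := by rw [hWo, hTo', Finset.prod_empty]
      rw [hWW, hWo', hprod, hu, pow_succ]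
      omega
  · have hTo' : To = T := Finset.erase_eq_of_notMem hT2
    have hTe : T = ∅ := by
      by_contra hne
      have hlt : W < PT := by
        rw [hW, hPT, hTo']
        refine Finset.prod_lt_prod_of_nonempty (fun q _ => Nat.succ_pos _) (fun l hl => ?_)
          (Finset.nonempty_iff_ne_empty.mpr hne)
        rw [← hTo'] at hl
        have := NUM_one l (v l) (hTo3 l hl).1 (hTo3 l hl).2.1
        have : 0 < l ^ v l + 1 := Nat.succ_pos _
        omega
      exact absurd (Nat.le_of_dvd hWpos hPTdvd) (not_le.mpr hlt)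
    rw [hW, hTe]
    simp

end Pool.Agent.Work.MP_113634_trap
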