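import Pool.Agent.Work.MP_113634_trap.Interface
import Pool.Agent.Work.SW.AP

/-!
# Congruence traps: primes in a fixed arithmetic progression
-/

set_option autoImplicit false

namespace Pool.Agent.Work.MP_113634_trap

open Filter Asymptotics ArithmeticFunction

theorem stmt_PAP : Stmt_PAP := by
  intro M a hM ha
  have : NeZero M := ⟨hM.ne'⟩
  obtain ⟨C, hC, hpsi⟩ := Pool.Agent.SW.psi_ap 1 1
  obtain ⟨C', hC'⟩ := Chebyshev.psi_sub_theta_le_mul_sqrt
  have hφ : (0 : ℝ) < M.totient := by exact_mod_cast Nat.totient_pos.2 hM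
  have hunit : IsUnit ((a : ℕ) : ZMod M) := (ZMod.isUnit_iff_coprime a M).2 ha
  -- large `x`
  have hcast : Tendsto (fun x : ℕ => (x : ℝ)) atTop atTop := tendsto_natCast_atTop_atTop
  have hlog : Tendsto (fun x : ℕ => Real.log x) atTop atTop := Real.tendsto_log_atTop.comp hcast
  have e1 : ∀ᶠ x : ℕ in atTop, (M : ℝ) ≤ Real.log x := hlog.eventually_ge_atTop _
  have e2 : ∀ᶠ x : ℕ in atTop, 4 * C * M.totient ≤ Real.log x := hlog.eventually_ge_atTop _
  have hsqrt : Tendsto (fun x : ℕ => √(x : ℝ)) atTop atTop := Real.tendsto_sqrt_atTop.comp hcast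
  have e3 : ∀ᶠ x : ℕ in atTop, 4 * |C'| * M.totient ≤ √(x : ℝ) := hsqrt.eventually_ge_atTop _
  obtain ⟨X, hX⟩ := eventually_atTop.1 (e1.and (e2.and (e3.and (eventually_ge_atTop 3))))
  refine ⟨1 / (2 * M.totient), by positivity, X, fun x hx => ?_⟩
  obtain ⟨h1, h2, h3, h4⟩ := hX x hx
  have hx0 : (0 : ℝ) < x := by
    have : 0 < x := by omega
    exact_mod_cast this
  have hx3 : (3 : ℝ) ≤ x := by exact_mod_cast h4
  have hL : 0 < Real.log x := Real.log_pos (by linarith)
  have h5 := hpsi M a hunit x (by linarith) (by rw [pow_one]; exact h1)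
  rw [Nat.floor_natCast, pow_one] at h5
  set F := (Finset.Ioc 0 x).filter (fun n : ℕ => (n : ZMod M) = (a : ZMod M)) with hF
  have h6 : (x : ℝ) / M.totient - C * (x / Real.log x) ≤ ∑ n ∈ F, Λ n := by
    have := (abs_le.1 h5).1
    linarith
  have h7 : ∑ n ∈ F, Λ n = ∑ n ∈ F.filter (fun n => n.Prime), Λ n
      + ∑ n ∈ F.filter (fun n => ¬ n.Prime), Λ n := (Finset.sum_filter_add_sum_filter_not _ _ _).symm
  have h8 : ∑ n ∈ F.filter (fun n => ¬ n.Prime), Λ n ≤ C' * √(x : ℝ) := by
    refine le_trans ?_ (hC' x)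
    rw [Chebyshev.psi_sub_theta_eq_sum_not_prime, Nat.floor_natCast]
    refine Finset.sum_le_sum_of_subset_of_nonneg ?_ fun n _ _ => vonMangoldt_nonneg
    intro n hn
    rw [Finset.mem_filter] at hn ⊢
    exact ⟨(Finset.mem_filter.1 hn.1).1, hn.2⟩
  have h9 : ∑ n ∈ F.filter (fun n => n.Prime), Λ n
      ≤ (((Finset.Icc 1 x).filter fun p => p.Prime ∧ p ≡ a [MOD M]).card : ℝ) * Real.log x := by
    have h10 : ∑ n ∈ F.filter (fun n => n.Prime), Λ n
        ≤ ∑ n ∈ F.filter (fun n => n.Prime), Real.log x := by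
      refine Finset.sum_le_sum fun n hn => ?_
      rw [Finset.mem_filter] at hn
      have h11 := Finset.mem_Ioc.1 (Finset.mem_filter.1 hn.1).1
      refine le_trans vonMangoldt_le_log ?_
      refine Real.log_le_log (by exact_mod_cast h11.1) (by exact_mod_cast h11.2)
    rw [Finset.sum_const, nsmul_eq_mul] at h10
    refine le_trans h10 (mul_le_mul_of_nonneg_right ?_ hL.le)
    norm_cast
    refine Finset.card_le_card fun n hn => ?_
    rw [Finset.mem_filter] at hn
    have h11 := Finset.mem_filter.1 hn.1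
    have h12 := Finset.mem_Ioc.1 h11.1
    rw [Finset.mem_filter, Finset.mem_Icc]
    exact ⟨⟨h12.1, h12.2⟩, hn.2, (ZMod.natCast_eq_natCast_iff _ _ _).1 h11.2⟩
  rw [div_le_iff₀ hL]
  have h12 : C * (x / Real.log x) ≤ x / (4 * M.totient) := by
    rw [mul_div_assoc', div_le_div_iff₀ hL (by positivity)]
    nlinarith
  have h13 : C' * √(x : ℝ) ≤ x / (4 * M.totient) := by
    rw [le_div_iff₀ (by positivity)]
    have h14 : C' * √(x : ℝ) * (4 * M.totient) ≤ |C'| * √(x : ℝ) * (4 * M.totient) := by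
      have := le_abs_self C'
      have h15 : 0 ≤ √(x : ℝ) * (4 * M.totient) := by positivity
      nlinarith
    have h15 : |C'| * √(x : ℝ) * (4 * M.totient) ≤ √(x : ℝ) * √(x : ℝ) := by
      have : 0 ≤ √(x : ℝ) := Real.sqrt_nonneg _
      nlinarith
    rw [Real.mul_self_sqrt hx0.le] at h15
    exact h14.trans h15
  have h14 : (x : ℝ) / M.totient = x / (4 * M.totient) + x / (4 * M.totient)
      + 1 / (2 * M.totient) * x := by
    field_simp
    ring
  linarith

end Pool.Agent.Work.MP_113634_trap
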