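import Pool.Agent.Work.MP_113634_trap.Interface

/-!
# Congruence traps: raising the exponent of two
-/

set_option autoImplicit false

namespace Pool.Agent.Work.MP_113634_trap

open Pool.Agent.Work.MP_113634_nt (usum sstar sstar_add self_le_usum usum_mul usum_prime)

theorem R2_exact (n v : ℕ) (h1 : 2 ^ v ∣ n) (h2 : ¬ 2 ^ (v + 1) ∣ n) :
    ∃ m, n = 2 ^ v * m ∧ m % 2 = 1 := by
  obtain ⟨m, rfl⟩ := h1
  refine ⟨m, rfl, ?_⟩
  by_contra hcon
  have h3 : 2 ∣ m := by omega
  exact h2 (by rw [pow_succ]; exact Nat.mul_dvd_mul_left _ h3)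

theorem stmt_R2 : Stmt_R2 := by
  intro k v A x x' hvk hA h1 h2 h3 hx hxx
  have hv2 : 2 ≤ v := by
    by_contra hcon
    have h4 : v - 1 = 0 := by omega
    rw [h4, pow_zero] at h3
    exact h3 (one_dvd _)
  have hu0 : usum A ≠ 0 := by
    have := self_le_usum hA
    omega
  obtain ⟨w, α, hα, hu⟩ := Nat.exists_eq_two_pow_mul_odd hu0
  have hw : w < v - 1 := by
    by_contra hcon
    refine h3 ?_
    rw [hu]
    exact (pow_dvd_pow 2 (not_lt.1 hcon)).mul_right α
  obtain ⟨γ, hγ, hγ2⟩ := R2_exact A v h1 h2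
  have h4 : 4 ∣ x + x' := by
    have h5 : 2 ^ 2 ∣ 2 ^ k := pow_dvd_pow 2 (by omega)
    exact (by norm_num : (4 : ℕ) = 2 ^ 2) ▸ h5.trans hxx
  obtain ⟨y, hy, hy4⟩ : ∃ y : ℕ, (y = x ∨ y = x') ∧ y % 4 = 1 := by
    by_cases h : x % 4 = 1
    · exact ⟨x, Or.inl rfl, h⟩
    · exact ⟨x', Or.inr rfl, by omega⟩
  refine ⟨y, hy, y :: List.replicate (v - w - 1) 1, ?_, ?_, ?_, ?_⟩
  · rw [List.length_cons, List.length_replicate]
    omega
  · intro c hc
    rw [List.mem_cons] at hc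
    rcases hc with rfl | hc
    · exact Nat.coprime_two_right.2 (Nat.odd_iff.2 (by omega))
    · rw [List.eq_of_mem_replicate hc]
      exact Nat.coprime_one_left 2
  · rw [List.prod_cons, List.prod_replicate, one_pow, mul_one]
  · unfold up
    rw [List.prod_cons, List.prod_replicate, one_pow, mul_one, List.map_cons, List.map_replicate,
      List.prod_cons, List.prod_replicate, hu]
    obtain ⟨β, hβ⟩ : ∃ β, y + 1 = 2 * (2 * β + 1) := ⟨(y + 1) / 4, by omega⟩
    have h6 : 2 ^ w * α * ((y + 1) * (1 + 1) ^ (v - w - 1)) = 2 ^ v * (α * (2 * β + 1)) := by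
      rw [hβ]
      have h7 : v = w + (v - w - 1) + 1 := by omega
      calc 2 ^ w * α * (2 * (2 * β + 1) * (1 + 1) ^ (v - w - 1))
          = 2 ^ (w + (v - w - 1) + 1) * (α * (2 * β + 1)) := by
            rw [pow_succ, pow_add]; ring
        _ = 2 ^ v * (α * (2 * β + 1)) := by rw [← h7]
    have h8 : A * y = 2 ^ v * (γ * y) := by rw [hγ]; ring
    rw [h6, h8, ← Nat.mul_sub, pow_succ]
    refine Nat.mul_dvd_mul_left _ ?_
    have h9 : (α * (2 * β + 1)) % 2 = 1 := by
      rw [Nat.mul_mod, Nat.odd_iff.1 hα]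
      omega
    have h10 : (γ * y) % 2 = 1 := by
      rw [Nat.mul_mod, hγ2]
      omega
    omega

end Pool.Agent.Work.MP_113634_trap
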