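import Pool.Agent.Work.MP_113634_trap.Interface

/-!
# Congruence traps: the exponents `vv`
-/

set_option autoImplicit false

namespace Pool.Agent.Work.MP_113634_trap

theorem VV_iff (M n l i : ℕ) (hM : 0 < M) (hl : l ∈ M.primeFactors) :
    i ≤ vv M n l ↔ l ^ i ∣ n ∧ i ≤ kk M l := by
  have hlp := Nat.prime_of_mem_primeFactors hl
  have hg : Nat.gcd n M ≠ 0 := (Nat.gcd_pos_of_pos_right n hM).ne'
  unfold vv kk
  rw [← hlp.pow_dvd_iff_le_factorization hg, ← hlp.pow_dvd_iff_le_factorization hM.ne',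
    Nat.dvd_gcd_iff]

theorem stmt_VV : Stmt_VV := by
  intro M n n' l hM hl
  have hlp := Nat.prime_of_mem_primeFactors hl
  have hle : ∀ m, vv M m l ≤ kk M l := fun m => ((VV_iff M m l _ hM hl).1 le_rfl).2
  refine ⟨fun h => ?_, fun v hv hd => (VV_iff M n' l v hM hl).2 ⟨hd, hv⟩, fun h => ?_, hle n, ?_⟩
  · have key : ∀ i ≤ kk M l, (l ^ i ∣ n' ↔ l ^ i ∣ n) := by
      intro i hi
      have h1 : l ^ i ∣ l ^ kk M l := pow_dvd_pow _ hi
      rcases h with h | h
      · have h2 : l ^ i ∣ n' + n := h1.trans h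
        exact ⟨fun h3 => (Nat.dvd_add_right h3).1 h2, fun h3 => (Nat.dvd_add_left h3).1 h2⟩
      · exact (h.of_dvd h1).dvd_iff dvd_rfl
    refine le_antisymm ?_ ?_
    · refine (VV_iff M n l _ hM hl).2 ⟨(key _ (hle n')).1 ?_, hle n'⟩
      exact ((VV_iff M n' l _ hM hl).1 le_rfl).1
    · refine (VV_iff M n' l _ hM hl).2 ⟨(key _ (hle n)).2 ?_, hle n⟩
      exact ((VV_iff M n l _ hM hl).1 le_rfl).1
  · by_contra hcon
    have h1 : 1 ≤ vv M n' l := Nat.one_le_iff_ne_zero.2 hcon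
    have h2 := ((VV_iff M n' l 1 hM hl).1 h1).1
    rw [pow_one] at h2
    exact h h2
  · unfold kk
    exact (hlp.dvd_iff_one_le_factorization hM.ne').1 (Nat.dvd_of_mem_primeFactors hl)

end Pool.Agent.Work.MP_113634_trap
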