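import Pool.Agent.Work.MP_113634_trap.B_DESC
import Pool.Agent.Work.MP_113634_trap.B_VV

/-!
# Congruence traps: representatives up to units
-/

set_option autoImplicit false

namespace Pool.Agent.Work.MP_113634_trap

theorem REP_val (M : ℕ) (hM : 0 < M) (u : ZMod M) (hu : IsUnit u) :
    ∃ c : ℕ, c.Coprime M ∧ (c : ZMod M) = u := by
  have : NeZero M := ⟨hM.ne'⟩
  refine ⟨u.val, ?_, ZMod.natCast_zmod_val u⟩
  rw [← ZMod.isUnit_iff_coprime, ZMod.natCast_zmod_val]
  exact hu

theorem REP_gcd (M : ℕ) (hM : 0 < M) (n : ℕ) :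
    ∃ c : ℕ, c.Coprime M ∧ Nat.gcd n M * c ≡ n [MOD M] := by
  obtain ⟨d, hd, u, hu, h⟩ := ZMod.eq_unit_mul_divisor (n : ZMod M)
  obtain ⟨c, hc, rfl⟩ := REP_val M hM u hu
  have h1 : n ≡ c * d [MOD M] := by
    rw [← ZMod.natCast_eq_natCast_iff]
    push_cast
    exact h
  have h2 : Nat.gcd n M = d := by
    rw [h1.gcd_eq, Nat.Coprime.gcd_mul_left_cancel d hc, Nat.gcd_eq_left hd]
  refine ⟨c, hc, ?_⟩
  rw [h2, mul_comm]
  exact h1.symm

theorem stmt_REP : Stmt_REP := by
  intro M hM n b hb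
  have hA : 0 < AA M n b := by
    unfold AA
    exact Finset.prod_pos fun l hl => pow_pos (Nat.prime_of_mem_primeFactors hl).pos _
  have hg : Nat.gcd (AA M n b) M = Nat.gcd n M := by
    refine Nat.eq_of_factorization_eq (Nat.gcd_pos_of_pos_right _ hM).ne'
      (Nat.gcd_pos_of_pos_right _ hM).ne' fun l => ?_
    by_cases hl : l ∈ M.primeFactors
    · have hlp := Nat.prime_of_mem_primeFactors hl
      obtain ⟨h1, h2⟩ := DESC_AA M n b l hl
      have h3 : (AA M n b).factorization l = if vv M n l = kk M l then b else vv M n l := by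
        refine le_antisymm ?_ ((hlp.pow_dvd_iff_le_factorization hA.ne').1 h1)
        by_contra hcon
        exact h2 ((hlp.pow_dvd_iff_le_factorization hA.ne').2 (not_le.1 hcon))
      have hle : vv M n l ≤ kk M l := (stmt_VV M n n l hM hl).2.2.2.1
      have hkb : kk M l < M := Nat.factorization_lt l hM.ne'
      change _ = vv M n l
      rw [Nat.factorization_gcd hA.ne' hM.ne', Finsupp.inf_apply, h3]
      change min _ (kk M l) = _
      split_ifs with h4
      · rw [h4]
        exact min_eq_right (by omega)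
      · exact min_eq_left hle
    · have h1 : ∀ m, (Nat.gcd m M).factorization l = 0 := by
        intro m
        by_cases hlp : l.Prime
        · refine Nat.factorization_eq_zero_of_not_dvd fun h => ?_
          exact hl (Nat.mem_primeFactors.2 ⟨hlp, h.trans (Nat.gcd_dvd_right m M), hM.ne'⟩)
        · exact Nat.factorization_eq_zero_of_not_prime _ hlp
      rw [h1, h1]
  obtain ⟨c1, hc1, h1⟩ := REP_gcd M hM (AA M n b)
  obtain ⟨c2, hc2, h2⟩ := REP_gcd M hM n
  rw [hg] at h1
  obtain ⟨c3, hc3, h3⟩ := REP_val M hM ((ZMod.unitOfCoprime c1 hc1)⁻¹ : (ZMod M)ˣ) (Units.isUnit _)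
  have h4 : c1 * c3 ≡ 1 [MOD M] := by
    rw [← ZMod.natCast_eq_natCast_iff]
    push_cast
    rw [h3]
    exact Units.mul_inv (ZMod.unitOfCoprime c1 hc1)
  refine ⟨c3 * c2, Nat.Coprime.mul_left hc3 hc2, ?_⟩
  calc AA M n b * (c3 * c2) ≡ Nat.gcd n M * c1 * (c3 * c2) [MOD M] := h1.symm.mul_right _
    _ = Nat.gcd n M * c2 * (c1 * c3) := by ring
    _ ≡ Nat.gcd n M * c2 * 1 [MOD M] := h4.mul_left _
    _ = Nat.gcd n M * c2 := mul_one _
    _ ≡ n [MOD M] := h2

end Pool.Agent.Work.MP_113634_trap
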