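import Pool.Agent.Work.MP_113634_trap.Interface

set_option autoImplicit false

namespace Pool.Agent.Work.MP_113634_trap.ROsec

/-- solve `c * d = y` modulo `l ^ k` -/
theorem solve (l k c y : ℕ) (hl : l.Prime) (hc : ¬ l ∣ c) :
    ∃ d : ℕ, c * d ≡ y [MOD l ^ k] := by
  have hco : Nat.Coprime c (l ^ k) := by
    apply Nat.Coprime.pow_right
    exact (Nat.Prime.coprime_iff_not_dvd hl).mpr hc |>.symm
  have hpos : 0 < l ^ k := pow_pos hl.pos k
  haveI : NeZero (l ^ k) := ⟨hpos.ne'⟩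
  refine ⟨((ZMod.unitOfCoprime c hco)⁻¹.val * (y : ZMod (l ^ k))).val, ?_⟩
  rw [← ZMod.natCast_eq_natCast_iff, Nat.cast_mul, ZMod.natCast_zmod_val, ← mul_assoc,
    ← ZMod.coe_unitOfCoprime c hco, Units.mul_inv, one_mul]

theorem ndvd_of_modEq {l a b : ℕ} (h : a ≡ b [MOD l]) (hb : ¬ l ∣ b) : ¬ l ∣ a := by
  intro h'
  exact hb ((Nat.ModEq.dvd_iff h (dvd_refl l)).mp h')

theorem modEq_l {l k a b : ℕ} (hk : 1 ≤ k) (h : a ≡ b [MOD l ^ k]) : a ≡ b [MOD l] :=
  h.of_dvd (dvd_pow_self l (by omega))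

/-- divisibility of a truncated difference -/
theorem dvd_tsub {m a b : ℕ} (h : a ≡ b [MOD m]) : m ∣ a - b := by
  rcases Nat.le_total a b with h1 | h1
  · rw [Nat.sub_eq_zero_of_le h1]; exact dvd_zero m
  · exact (Nat.modEq_iff_dvd' h1).mp h.symm

theorem ne_dvd_prod {l : ℕ} (hl : l.Prime) (xs : List ℕ) (h : ∀ c ∈ xs, ¬ l ∣ c) :
    ¬ l ∣ xs.prod := by
  intro h'
  obtain ⟨c, hc, hd⟩ := (Prime.dvd_prod_iff hl.prime).mp h'
  exact h c hc hd

/-- adjusting the first element -/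
theorem adjust (l k y : ℕ) (hl : l.Prime) (hk : 1 ≤ k) (c : ℕ) (xs : List ℕ)
    (hx : ∀ d ∈ c :: xs, ¬ l ∣ d) (hp : (c :: xs).prod ≡ y [MOD l]) :
    ∃ c' : ℕ, ¬ l ∣ c' ∧ (c' :: xs).prod ≡ y [MOD l ^ k] ∧ c' ≡ c [MOD l] := by
  have hxs : ¬ l ∣ xs.prod := ne_dvd_prod hl xs (fun d hd => hx d (List.mem_cons_of_mem c hd))
  obtain ⟨c', hc'⟩ := solve l k xs.prod y hl hxs
  have h1 : xs.prod * c' ≡ xs.prod * c [MOD l] := by
    refine (modEq_l hk hc').trans ?_
    rw [List.prod_cons, mul_comm] at hp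
    exact hp.symm
  have h2 : c' ≡ c [MOD l] := by
    apply Nat.ModEq.cancel_left_of_coprime _ h1
    exact (Nat.Prime.coprime_iff_not_dvd hl).mpr hxs
  refine ⟨c', ?_, ?_, h2⟩
  · exact ndvd_of_modEq h2 (hx c (List.mem_cons_self))
  · rw [List.prod_cons, mul_comm]; exact hc'

/-- the residues modulo `l` -/
theorem resid (hGL : Stmt_GL) (l : ℕ) (hl : l.Prime) (hl2 : l ≠ 2) (x x' α β : ℕ)
    (hx : ¬ l ∣ x) (hxx : l ∣ x + x') (hα : ¬ l ∣ α) (hβ : ¬ l ∣ β) :
    ∃ y : ℕ, (y = x ∨ y = x') ∧ ∃ xs : List ℕ, 2 ≤ xs.length ∧ (∀ c ∈ xs, ¬ l ∣ c) ∧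
      xs.prod ≡ y [MOD l] ∧ α * (xs.map (fun c => c + 1)).prod ≡ β * y [MOD l] := by
  have h3 : 3 ≤ l := by
    have := hl.two_le; omega
  have hβx : ¬ l ∣ β * x := fun h => (hl.dvd_mul.mp h).elim hβ hx
  rcases Nat.lt_or_ge 3 l with h | h
  · have h5 : 5 ≤ l := by
      rcases Nat.lt_or_ge 4 l with h' | h'
      · omega
      · exfalso
        have : l = 4 := by omega
        subst this
        exact absurd hl (by decide)
    obtain ⟨z, hz⟩ := solve l 1 α (β * x) hl hα
    rw [pow_one] at hz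
    have hz' : ¬ l ∣ z := by
      intro h'
      exact (ndvd_of_modEq hz hβx) (Dvd.dvd.mul_left h' α)
    obtain ⟨xs, a, b, c, d⟩ := hGL l hl h5 x z hx hz'
    refine ⟨x, Or.inl rfl, xs, a, fun c hc => (b c hc).1, c, ?_⟩
    exact (Nat.ModEq.mul_left α d).trans hz
  · have : l = 3 := by omega
    subst this
    have hy : ∃ y : ℕ, (y = x ∨ y = x') ∧ y % 3 = 1 := by
      have h1 : x % 3 = 1 ∨ x % 3 = 2 := by omega
      rcases h1 with h1 | h1
      · exact ⟨x, Or.inl rfl, h1⟩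
      · exact ⟨x', Or.inr rfl, by omega⟩
    obtain ⟨y, hy1, hy2⟩ := hy
    have hα' : α % 3 = 1 ∨ α % 3 = 2 := by omega
    have hβ' : β % 3 = 1 ∨ β % 3 = 2 := by omega
    have hy3 : ¬ 3 ∣ y := by omega
    refine ⟨y, hy1, ?_⟩
    have e1 : y ≡ 1 [MOD 3] := hy2
    have ey : y + 1 ≡ 2 [MOD 3] := Nat.ModEq.add_right 1 e1
    by_cases hab : α % 3 = β % 3
    · refine ⟨[y, 1], by simp, ?_, by simp [Nat.ModEq], ?_⟩
      · intro c hc
        simp at hc
        rcases hc with rfl | rfl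
        · exact hy3
        · norm_num
      · have hab' : α ≡ β [MOD 3] := hab
        have : ([y, 1].map (fun c => c + 1)).prod = (y + 1) * 2 := by simp
        rw [this]
        have e2 : α * ((y + 1) * 2) ≡ β * (2 * 2) [MOD 3] :=
          Nat.ModEq.mul hab' (Nat.ModEq.mul_right 2 ey)
        refine e2.trans ?_
        apply Nat.ModEq.mul_left β
        exact (by decide : 2 * 2 ≡ 1 [MOD 3]).trans e1.symm
    · refine ⟨[y, 1, 1], by simp, ?_, by simp [Nat.ModEq], ?_⟩
      · intro c hc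
        simp at hc
        rcases hc with rfl | rfl
        · exact hy3
        · norm_num
      · have hab' : α ≡ 2 * β [MOD 3] := by
          unfold Nat.ModEq
          omega
        have : ([y, 1, 1].map (fun c => c + 1)).prod = (y + 1) * (2 * 2) := by simp
        rw [this]
        have e2 : α * ((y + 1) * (2 * 2)) ≡ (2 * β) * (2 * (2 * 2)) [MOD 3] :=
          Nat.ModEq.mul hab' (Nat.ModEq.mul_right (2 * 2) ey)
        refine e2.trans ?_
        have : 2 * β * (2 * (2 * 2)) = β * 16 := by ring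
        rw [this]
        apply Nat.ModEq.mul_left β
        exact (by decide : 16 ≡ 1 [MOD 3]).trans e1.symm

/-- a natural number not divisible by `l ^ (v + 1)` -/
theorem split (l v s : ℕ) (hl : l.Prime) (hs : ¬ l ^ (v + 1) ∣ s) :
    ∃ w α : ℕ, w ≤ v ∧ s = l ^ w * α ∧ ¬ l ∣ α := by
  have hs0 : s ≠ 0 := by
    rintro rfl
    exact hs (dvd_zero _)
  obtain ⟨w, α, h1, h2⟩ := Nat.exists_eq_pow_mul_and_not_dvd hs0 l hl.ne_one
  refine ⟨w, α, ?_, h2, h1⟩
  by_contra h
  apply hs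
  rw [h2]
  exact Dvd.dvd.mul_right (pow_dvd_pow l (by omega)) α

end ROsec

open ROsec in
theorem blk_RO (hGL : Stmt_GL) : Stmt_RO := by
  intro l hl hl2 k v A x x' hvk hA hA1 hA2 hs hx hxx
  have hk : 1 ≤ k := by omega
  obtain ⟨w, α, hwv, hsw, hα⟩ := split l v (Pool.Agent.Work.MP_113634_nt.usum A) hl hs
  obtain ⟨β, hβ⟩ := hA1
  have hβl : ¬ l ∣ β := by
    intro h
    apply hA2
    rw [hβ, pow_succ]
    exact Nat.mul_dvd_mul_left _ h
  have hxl : l ∣ x + x' := (dvd_pow_self l (by omega)).trans hxx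
  have hx' : ¬ l ∣ x' := by
    intro h
    exact hx ((Nat.dvd_add_left h).mp hxl)
  have hcop : ∀ c : ℕ, ¬ l ∣ c → c.Coprime l := by
    intro c hc
    exact ((Nat.Prime.coprime_iff_not_dvd hl).mpr hc).symm
  rcases Nat.lt_or_ge w v with hlt | hge
  · -- case `w < v`
    have hy : ∃ y : ℕ, (y = x ∨ y = x') ∧ ¬ y ≡ 1 [MOD l] ∧ ¬ l ∣ y := by
      by_cases h1 : x ≡ 1 [MOD l]
      · refine ⟨x', Or.inr rfl, ?_, hx'⟩
        intro h2
        have h3 : x + x' ≡ 1 + 1 [MOD l] := Nat.ModEq.add h1 h2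
        have h4 : l ∣ 1 + 1 := (Nat.ModEq.dvd_iff h3 (dvd_refl l)).mp hxl
        have h5 := Nat.le_of_dvd (by norm_num) h4
        have := hl.two_le
        omega
      · exact ⟨x, Or.inl rfl, h1, hx⟩
    obtain ⟨y, hy1, hy2, hy3⟩ := hy
    refine ⟨y, hy1, ?_⟩
    -- `g = 1 - y` modulo `l`
    set g : ℕ := 1 + (l - 1) * y with hg
    have hg1 : g + y ≡ 1 [MOD l] := by
      have : g + y = 1 + l * y := by
        rw [hg]
        have : l = (l - 1) + 1 := by have := hl.two_le; omega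
        conv_rhs => rw [this]
        ring
      rw [this]
      unfold Nat.ModEq
      rw [Nat.add_mul_mod_self_left]
    have hg2 : ¬ l ∣ g := by
      intro h
      apply hy2
      have h0 : g ≡ 0 [MOD l] := (Nat.modEq_zero_iff_dvd).mpr h
      have := (Nat.ModEq.add_right y h0).symm.trans hg1
      rwa [zero_add] at this
    have hαg : ¬ l ∣ α * g := fun h => (hl.dvd_mul.mp h).elim hα hg2
    obtain ⟨t, ht⟩ := solve l 1 (α * g) (β * y) hl hαg
    rw [pow_one] at ht
    have ht0 : ¬ l ∣ t := by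
      intro h
      have : ¬ l ∣ β * y := fun h => (hl.dvd_mul.mp h).elim hβl hy3
      exact (ndvd_of_modEq ht this) (Dvd.dvd.mul_left h _)
    have htp : 0 < t := by
      rcases Nat.eq_zero_or_pos t with h | h
      · subst h; exact absurd (dvd_zero l) ht0
      · exact h
    have hpow : 0 < l ^ (v - w) := pow_pos hl.pos _
    set c1 : ℕ := l ^ (v - w) * t - 1 with hc1
    have hc1' : c1 + 1 = l ^ (v - w) * t := by
      have : 0 < l ^ (v - w) * t := Nat.mul_pos hpow htp
      omega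
    have hlc : l ∣ c1 + 1 := by
      rw [hc1']
      exact Dvd.dvd.mul_right (dvd_pow_self l (by omega)) t
    have hc1l : ¬ l ∣ c1 := by
      intro h
      have := (Nat.dvd_add_right h).mp hlc
      exact hl.one_lt.ne' (Nat.dvd_one.mp this)
    obtain ⟨c3, hc3⟩ := solve l k c1 y hl hc1l
    have hc3l : c1 * c3 ≡ y [MOD l] := modEq_l hk hc3
    have hc3n : ¬ l ∣ c3 := by
      intro h
      exact (ndvd_of_modEq hc3l hy3) (Dvd.dvd.mul_left h _)
    -- `c3 + 1 = g` modulo `l`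
    have hc3g : c3 + 1 ≡ g [MOD l] := by
      have h1 : (c1 + 1) * c3 ≡ 0 [MOD l] := (Nat.modEq_zero_iff_dvd).mpr
        (Dvd.dvd.mul_right hlc c3)
      have h2 : y + c3 ≡ 0 [MOD l] := by
        refine (Nat.ModEq.add_right c3 hc3l.symm).trans ?_
        have : c1 * c3 + c3 = (c1 + 1) * c3 := by ring
        rw [this]; exact h1
      have h3 : (c3 + 1) + y ≡ g + y [MOD l] := by
        refine Nat.ModEq.trans ?_ hg1.symm
        have : c3 + 1 + y = (y + c3) + 1 := by ring
        rw [this]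
        exact Nat.ModEq.add_right 1 h2
      exact Nat.ModEq.add_right_cancel' y h3
    refine ⟨[c1, c3], by simp, ?_, by simpa using hc3, ?_⟩
    · intro c hc
      simp at hc
      rcases hc with rfl | rfl
      · exact hcop _ hc1l
      · exact hcop _ hc3n
    · apply dvd_tsub
      unfold up
      have e1 : ([c1, c3].map (fun c => c + 1)).prod = (c1 + 1) * (c3 + 1) := by simp
      have e2 : [c1, c3].prod = c1 * c3 := by simp
      rw [e1, e2, hsw, hβ, hc1']
      have e3 : l ^ w * α * (l ^ (v - w) * t * (c3 + 1)) = l ^ v * (α * t * (c3 + 1)) := by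
        have : l ^ v = l ^ w * l ^ (v - w) := by
          rw [← pow_add]; congr 1; omega
        rw [this]; ring
      rw [e3, mul_assoc (l ^ v) β, pow_succ]
      apply Nat.ModEq.mul_left'
      have e4 : α * t * (c3 + 1) ≡ α * t * g [MOD l] := Nat.ModEq.mul_left _ hc3g
      refine e4.trans ?_
      have e5 : α * t * g = α * g * t := by ring
      rw [e5]
      exact ht.trans (Nat.ModEq.mul_left β hc3l.symm)
  · -- case `w = v`
    have hw : w = v := le_antisymm hwv hge
    subst hw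
    obtain ⟨y, hy1, xs, h1, h2, h3, h4⟩ := resid hGL l hl hl2 x x' α β hx hxl hα hβl
    refine ⟨y, hy1, ?_⟩
    match xs, h1, h2, h3, h4 with
    | [], h1, _, _, _ => simp at h1
    | c :: xs, h1, h2, h3, h4 =>
      obtain ⟨c', k1, k2, k3⟩ := adjust l k y hl hk c xs h2 h3
      refine ⟨c' :: xs, by simpa using h1, ?_, k2, ?_⟩
      · intro d hd
        rcases List.mem_cons.mp hd with rfl | h
        · exact hcop _ k1
        · exact hcop _ (h2 d (List.mem_cons_of_mem c h))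
      · apply dvd_tsub
        unfold up
        rw [hsw, hβ, mul_assoc, mul_assoc, pow_succ]
        apply Nat.ModEq.mul_left'
        have k4 : (c' :: xs).prod ≡ y [MOD l] := modEq_l hk k2
        refine Nat.ModEq.trans ?_ (Nat.ModEq.mul_left β k4.symm)
        refine Nat.ModEq.trans ?_ h4
        apply Nat.ModEq.mul_left α
        rw [List.map_cons, List.map_cons, List.prod_cons, List.prod_cons]
        exact Nat.ModEq.mul_right _ (Nat.ModEq.add_right 1 k3)

end Pool.Agent.Work.MP_113634_trap
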