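import Pool.Agent.Work.MP_113634_trap.B_US

/-!
# Congruence traps: the class `6 mod 12`
-/

set_option autoImplicit false

namespace Pool.Agent.Work.MP_113634_trap

open Pool.Agent.Work.MP_113634_nt (usum sstar sstar_add self_le_usum usum_mul usum_prime)

/-- the unitary divisor sum of an odd number greater than one is even -/
theorem usum_even (m : ℕ) (hm : 1 < m) (hodd : m % 2 = 1) : 2 ∣ usum m := by
  have h1 : ∏ p ∈ m.primeFactors, p ^ m.factorization p = m :=
    Nat.prod_factorization_pow_eq_self (by omega)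
  have h2 := stmt_US2 m.primeFactors (fun p => m.factorization p)
    fun p hp => Nat.prime_of_mem_primeFactors hp
  rw [h1] at h2
  rw [h2]
  obtain ⟨p, hp⟩ := Nat.nonempty_primeFactors.2 hm
  have hpp := Nat.prime_of_mem_primeFactors hp
  have hpm := Nat.dvd_of_mem_primeFactors hp
  have h3 : m.factorization p ≠ 0 := by
    have := (hpp.dvd_iff_one_le_factorization (by omega : m ≠ 0)).1 hpm
    omega
  refine dvd_trans ?_ (Finset.dvd_prod_of_mem _ hp)
  rw [if_neg h3]
  have h4 : p % 2 = 1 := by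
    refine hpp.eq_two_or_odd.resolve_left ?_
    rintro rfl
    omega
  have h5 : p ^ m.factorization p % 2 = 1 := by
    rw [Nat.pow_mod, h4, one_pow]
    norm_num
  omega

theorem stmt_SIX : Stmt_SIX := by
  intro n hn
  have hn6 : n % 12 = 6 := hn
  obtain ⟨b, m, hm3, hnm⟩ := Nat.exists_eq_pow_mul_and_not_dvd (n := n / 2) (by omega) 3
    (by norm_num)
  have hn2 : n = 2 * (3 ^ b * m) := by rw [← hnm]; omega
  have hb : b ≠ 0 := by
    rintro rfl
    rw [pow_zero, one_mul] at hnm
    omega
  have hm0 : 0 < m := by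
    rcases Nat.eq_zero_or_pos m with h | h
    · rw [h] at hm3
      exact absurd (dvd_zero 3) hm3
    · exact h
  have hmodd : m % 2 = 1 := by
    have h1 : (3 ^ b * m) % 2 = 1 := by rw [← hnm]; omega
    rw [Nat.mul_mod] at h1
    rcases Nat.mod_two_eq_zero_or_one m with h | h
    · rw [h] at h1
      norm_num at h1
    · exact h
  have h3b : 0 < 3 ^ b := by positivity
  have h3odd : 3 ^ b % 2 = 1 := by rw [Nat.pow_mod]; norm_num
  have hc1 : (2 : ℕ).Coprime (3 ^ b * m) := by
    refine Nat.coprime_two_left.2 (Nat.odd_iff.2 ?_)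
    rw [Nat.mul_mod, h3odd, hmodd]
  have hc2 : (3 ^ b).Coprime m := by
    refine Nat.Coprime.pow_left _ ?_
    exact (Nat.Prime.coprime_iff_not_dvd Nat.prime_three).2 hm3
  have hus : usum n = 3 * ((3 ^ b + 1) * usum m) := by
    rw [hn2, usum_mul (by norm_num) (Nat.mul_pos h3b hm0) hc1, usum_mul h3b hm0 hc2,
      usum_prime Nat.prime_two, stmt_US1 3 b Nat.prime_three (Nat.one_le_iff_ne_zero.2 hb)]
  have hn0 : 0 < n := by omega
  have hs := sstar_add hn0
  have hum := self_le_usum hm0
  constructor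
  · have h1 : (3 ^ b + 1) * m ≤ (3 ^ b + 1) * usum m := Nat.mul_le_mul_left _ hum
    have h2 : (3 ^ b + 1) * m = 3 ^ b * m + m := by ring
    omega
  · intro h
    refine ⟨b, ?_⟩
    by_contra hcon
    have hm1 : m ≠ 1 := by
      rintro rfl
      rw [mul_one] at hn2
      exact hcon hn2
    obtain ⟨t, ht⟩ := usum_even m (by omega) hmodd
    obtain ⟨r, hr⟩ : ∃ r, 3 ^ b + 1 = 2 * r := ⟨(3 ^ b + 1) / 2, by omega⟩
    have h4 : usum n = 12 * (r * t) := by
      rw [hus, ht, hr]
      ring
    apply h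
    change sstar n % 12 = 6
    omega

end Pool.Agent.Work.MP_113634_trap
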