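import Pool.Agent.Work.MP_113634_trap.Interface

/-!
# Congruence traps: unitary divisor sums
-/

set_option autoImplicit false

namespace Pool.Agent.Work.MP_113634_trap

open Pool.Agent.Work.MP_113634_nt (usum sstar sstar_add self_le_usum usum_mul usum_prime)

theorem US_one : usum 1 = 1 := by decide

theorem stmt_US1 : Stmt_US1 := by
  intro p a hp ha
  have h1 : (p ^ a).divisors.filter (fun d => Nat.Coprime d (p ^ a / d)) = {1, p ^ a} := by
    ext d
    rw [Finset.mem_filter, Nat.mem_divisors, Finset.mem_insert, Finset.mem_singleton]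
    constructor
    · rintro ⟨⟨hd, -⟩, hc⟩
      obtain ⟨i, hi, rfl⟩ := (Nat.dvd_prime_pow hp).1 hd
      rw [Nat.pow_div hi hp.pos] at hc
      by_contra hcon
      push Not at hcon
      have hi0 : i ≠ 0 := fun h => hcon.1 (by rw [h, pow_zero])
      have hia : i ≠ a := fun h => hcon.2 (by rw [h])
      have h2 : p ∣ Nat.gcd (p ^ i) (p ^ (a - i)) :=
        Nat.dvd_gcd (dvd_pow_self p hi0) (dvd_pow_self p (by omega))
      rw [hc.gcd_eq_one] at h2
      exact hp.one_lt.ne' (Nat.dvd_one.1 h2)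
    · rintro (rfl | rfl)
      · exact ⟨⟨one_dvd _, (pow_pos hp.pos a).ne'⟩, Nat.coprime_one_left _⟩
      · refine ⟨⟨dvd_rfl, (pow_pos hp.pos a).ne'⟩, ?_⟩
        rw [Nat.div_self (pow_pos hp.pos a)]
        exact Nat.coprime_one_right _
  have h3 : (1 : ℕ) ≠ p ^ a := (Nat.one_lt_pow (by omega) hp.one_lt).ne
  unfold usum
  rw [h1, Finset.sum_pair h3, add_comm]

theorem stmt_US2 : Stmt_US2 := by
  intro s a hs
  induction s using Finset.induction_on with
  | empty => simpa using US_one
  | insert p s hp ih =>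
    have hpp : p.Prime := hs p (Finset.mem_insert_self p s)
    have hs' : ∀ q ∈ s, q.Prime := fun q hq => hs q (Finset.mem_insert_of_mem hq)
    rw [Finset.prod_insert hp, Finset.prod_insert hp]
    have h1 : 0 < ∏ q ∈ s, q ^ a q := Finset.prod_pos fun q hq => pow_pos (hs' q hq).pos _
    have h2 : (p ^ a p).Coprime (∏ q ∈ s, q ^ a q) := by
      refine Nat.Coprime.prod_right fun q hq => Nat.Coprime.pow _ _ ?_
      refine (Nat.coprime_primes hpp (hs' q hq)).2 ?_
      rintro rfl
      exact hp hq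
    rw [usum_mul (pow_pos hpp.pos _) h1 h2, ih hs']
    congr 1
    by_cases h0 : a p = 0
    · rw [h0, pow_zero, if_pos rfl, US_one]
    · rw [if_neg h0, stmt_US1 p (a p) hpp (Nat.one_le_iff_ne_zero.2 h0)]

theorem stmt_US3 : Stmt_US3 := by
  intro A hA qs
  unfold up
  induction qs with
  | nil => intro _ _; simp
  | cons q qs ih =>
    intro hnd hq
    rw [List.nodup_cons] at hnd
    have hq1 := hq q (List.mem_cons_self)
    have hq2 : ∀ r ∈ qs, r.Prime ∧ ¬ r ∣ A := fun r hr => hq r (List.mem_cons_of_mem q hr)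
    have h1 : q.Coprime (A * qs.prod) := by
      refine Nat.Coprime.mul_right ((Nat.Prime.coprime_iff_not_dvd hq1.1).2 hq1.2) ?_
      refine (Nat.Prime.coprime_iff_not_dvd hq1.1).2 fun hd => ?_
      obtain ⟨r, hr, hr2⟩ := (Prime.dvd_prod_iff hq1.1.prime).1 hd
      rw [(Nat.prime_dvd_prime_iff_eq hq1.1 (hq2 r hr).1).1 hr2] at hnd
      exact hnd.1 hr
    have h2 : 0 < A * qs.prod := by
      refine Nat.mul_pos hA (List.prod_pos fun r hr => (hq2 r hr).1.pos)
    rw [List.prod_cons, List.map_cons, List.prod_cons]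
    have h3 : A * (q * qs.prod) = q * (A * qs.prod) := by ring
    rw [h3, usum_mul hq1.1.pos h2 h1, usum_prime hq1.1, ih hnd.2 hq2]
    ring

end Pool.Agent.Work.MP_113634_trap
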