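import Pool.Agent.Work.MP_113634_trap.B_US
import Pool.Agent.Work.MP_113634_trap.B_VV

/-!
# Congruence traps: the part of `σ*(A)` at the primes of `T`
-/

set_option autoImplicit false

namespace Pool.Agent.Work.MP_113634_trap

open Pool.Agent.Work.MP_113634_nt (usum sstar sstar_add self_le_usum usum_mul usum_prime)

/-- the primes with `v = k` -/
def VAL_K (M n : ℕ) : Finset ℕ := M.primeFactors.filter fun l => vv M n l = kk M l

theorem VAL_split (M n b : ℕ) (hM : 0 < M) (hb : 0 < b) :
    usum (AA M n b) = WW M n * ∏ q ∈ VAL_K M n, (q ^ b + 1) ∧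
      AA M n b = DD M n * ∏ q ∈ VAL_K M n, q ^ b := by
  have h0 : ∀ f : ℕ → ℕ, (∀ l ∈ M.primeFactors, vv M n l = 0 → f l = 1) →
      ∏ l ∈ M.primeFactors, f l = (∏ l ∈ TT M n, f l) * ∏ l ∈ VAL_K M n, f l := by
    intro f hf
    rw [← Finset.prod_filter_not_mul_prod_filter M.primeFactors (fun l => vv M n l = kk M l) f]
    unfold VAL_K
    congr 1
    symm
    refine Finset.prod_subset ?_ ?_
    · intro l hl
      unfold TT at hl
      rw [Finset.mem_filter] at hl ⊢
      exact ⟨hl.1, hl.2.2.ne⟩
    · intro l hl hl2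
      rw [Finset.mem_filter] at hl
      refine hf l hl.1 ?_
      by_contra hcon
      refine hl2 ?_
      unfold TT
      rw [Finset.mem_filter]
      have := (stmt_VV M n n l hM hl.1).2.2.2.1
      exact ⟨hl.1, Nat.pos_of_ne_zero hcon, by omega⟩
  have hk : ∀ l ∈ M.primeFactors, 1 ≤ kk M l := fun l hl => (stmt_VV M n n l hM hl).2.2.2.2
  constructor
  · unfold AA
    rw [stmt_US2 M.primeFactors _ (fun p hp => Nat.prime_of_mem_primeFactors hp)]
    rw [h0 _ (by
      intro l hl h1
      have := hk l hl
      rw [if_neg (by omega : ¬ vv M n l = kk M l), if_pos h1])]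
    unfold WW
    congr 1
    · refine Finset.prod_congr rfl fun l hl => ?_
      unfold TT at hl
      rw [Finset.mem_filter] at hl
      rw [if_neg (by omega : ¬ vv M n l = kk M l), if_neg (by omega)]
    · refine Finset.prod_congr rfl fun l hl => ?_
      unfold VAL_K at hl
      rw [Finset.mem_filter] at hl
      rw [if_pos hl.2, if_neg (by omega)]
  · unfold AA
    rw [h0 _ (by
      intro l hl h1
      have := hk l hl
      rw [if_neg (by omega : ¬ vv M n l = kk M l), h1, pow_zero])]
    unfold DD
    congr 1
    · refine Finset.prod_congr rfl fun l hl => ?_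
      unfold TT at hl
      rw [Finset.mem_filter] at hl
      rw [if_neg (by omega : ¬ vv M n l = kk M l)]
    · refine Finset.prod_congr rfl fun l hl => ?_
      unfold VAL_K at hl
      rw [Finset.mem_filter] at hl
      rw [if_pos hl.2]

theorem stmt_VAL : Stmt_VAL := by
  intro M n j hM
  set b := 2 * M.factorial * (j + 1) with hbdef
  have hb : 0 < b := by positivity
  obtain ⟨hs, -⟩ := VAL_split M n b hM hb
  constructor
  · intro l hl hl2 i h
    have hlp := Nat.prime_of_mem_primeFactors hl
    rw [hs] at h
    refine Nat.Coprime.dvd_of_dvd_mul_right ?_ h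
    refine Nat.Coprime.pow_left _ (Nat.Coprime.prod_right fun q hq => ?_)
    refine (Nat.Prime.coprime_iff_not_dvd hlp).2 fun hd => ?_
    unfold VAL_K at hq
    rw [Finset.mem_filter] at hq
    have hqp := Nat.prime_of_mem_primeFactors hq.1
    by_cases hql : q = l
    · subst hql
      have h1 : q ∣ q ^ b := dvd_pow_self q hb.ne'
      exact hqp.one_lt.ne' (Nat.dvd_one.1 ((Nat.dvd_add_right h1).1 hd))
    · have h2 : (l - 1) ∣ b := by
        have h3 : l - 1 ∣ M.factorial := by
          refine Nat.dvd_factorial (by have := hlp.two_le; omega) ?_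
          have := Nat.le_of_dvd hM (Nat.dvd_of_mem_primeFactors hl)
          omega
        rw [hbdef]
        exact (h3.mul_left 2).mul_right _
      have h3 : q ^ (l - 1) ≡ 1 [MOD l] := by
        have := Nat.ModEq.pow_totient ((Nat.coprime_primes hqp hlp).2 hql)
        rwa [Nat.totient_prime hlp] at this
      have h4 : q ^ b ≡ 1 [MOD l] := by
        obtain ⟨t, ht⟩ := h2
        rw [ht, pow_mul]
        simpa using h3.pow t
      have h5 : 2 ≡ 0 [MOD l] :=
        ((h4.add_right 1).symm).trans (Nat.modEq_zero_iff_dvd.2 hd)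
      exact hl2 ((Nat.prime_dvd_prime_iff_eq hlp Nat.prime_two).1 (Nat.modEq_zero_iff_dvd.1 h5))
  · intro h2T i h
    rw [hs] at h
    have hT2 := h2T
    unfold TT at hT2
    rw [Finset.mem_filter] at hT2
    have hKK : VAL_K M n = KK M n := by
      unfold VAL_K KK
      refine Finset.filter_congr fun l _ => ?_
      constructor
      · intro h3
        refine ⟨?_, h3⟩
        rintro rfl
        omega
      · exact fun h3 => h3.2
    rw [hKK] at h
    have hodd : ∀ K : Finset ℕ, (∀ q ∈ K, q % 2 = 1) →
        ∃ m, ∏ q ∈ K, (q ^ b + 1) = 2 ^ K.card * m ∧ m % 2 = 1 := by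
      intro K
      induction K using Finset.induction_on with
      | empty => intro _; exact ⟨1, by simp, rfl⟩
      | insert q K hq ih =>
        intro hK
        obtain ⟨m, hm, hm2⟩ := ih fun r hr => hK r (Finset.mem_insert_of_mem hr)
        have hqo := hK q (Finset.mem_insert_self q K)
        have h3 : (q ^ b + 1) % 4 = 2 := by
          have h4 : q ^ 2 % 4 = 1 := by
            have h5 : q % 4 = 1 ∨ q % 4 = 3 := by omega
            rcases h5 with h5 | h5 <;> rw [Nat.pow_mod, h5]
          have h6 : q ^ b % 4 = 1 := by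
            rw [hbdef, mul_assoc, pow_mul, Nat.pow_mod, h4, one_pow]
            norm_num
          omega
        refine ⟨(q ^ b + 1) / 2 * m, ?_, ?_⟩
        · rw [Finset.prod_insert hq, hm, Finset.card_insert_of_notMem hq, pow_succ]
          have h7 : q ^ b + 1 = 2 * ((q ^ b + 1) / 2) := by omega
          calc (q ^ b + 1) * (2 ^ K.card * m) = (2 * ((q ^ b + 1) / 2)) * (2 ^ K.card * m) := by
                rw [← h7]
            _ = _ := by ring
        · rw [Nat.mul_mod, hm2]
          omega
    obtain ⟨m, hm, hm2⟩ := hodd (KK M n) (by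
      intro q hq
      unfold KK at hq
      rw [Finset.mem_filter] at hq
      exact (Nat.prime_of_mem_primeFactors hq.1).eq_two_or_odd.resolve_left hq.2.1)
    rw [hm, ← mul_assoc] at h
    refine Nat.Coprime.dvd_of_dvd_mul_right ?_ h
    exact Nat.Coprime.pow_left _ (Nat.coprime_two_left.2 (Nat.odd_iff.2 hm2))

end Pool.Agent.Work.MP_113634_trap
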