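import Pool.Agent.Work.MP_113634_trap.B_VAL

/-!
# Congruence traps: the limit of `σ*(A)/A`
-/

set_option autoImplicit false

namespace Pool.Agent.Work.MP_113634_trap

open Pool.Agent.Work.MP_113634_nt (usum sstar sstar_add self_le_usum usum_mul usum_prime)

theorem stmt_VLIM : Stmt_VLIM := by
  intro M n hM hle ε hε
  have hD : 0 < DD M n := by
    unfold DD
    refine Finset.prod_pos fun l hl => pow_pos ?_ _
    unfold TT at hl
    exact (Nat.prime_of_mem_primeFactors (Finset.mem_filter.1 hl).1).pos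
  -- the product of `1 + q^{-b}` tends to `1`
  have hlim : Filter.Tendsto (fun j : ℕ => ∏ q ∈ VAL_K M n,
      (1 + ((q : ℝ) ^ (2 * M.factorial * (j + 1)))⁻¹)) Filter.atTop (nhds (∏ _q ∈ VAL_K M n, (1 : ℝ))) := by
    refine tendsto_finsetProd _ fun q hq => ?_
    have hq2 : (2 : ℝ) ≤ q := by
      unfold VAL_K at hq
      exact_mod_cast (Nat.prime_of_mem_primeFactors (Finset.mem_filter.1 hq).1).two_le
    have h1 : Filter.Tendsto (fun j : ℕ => (q : ℝ) ^ (2 * M.factorial * (j + 1))) Filter.atTop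
        Filter.atTop := by
      refine (tendsto_pow_atTop_atTop_of_one_lt (by linarith : (1 : ℝ) < q)).comp ?_
      refine Filter.tendsto_atTop_mono (fun j => ?_) (Filter.tendsto_add_atTop_nat 1)
      exact Nat.le_mul_of_pos_left _ (by positivity)
    have h2 : Filter.Tendsto (fun j : ℕ => (1 : ℝ) + ((q : ℝ) ^ (2 * M.factorial * (j + 1)))⁻¹)
        Filter.atTop (nhds (1 + 0)) := (h1.inv_tendsto_atTop).const_add 1
    rwa [add_zero] at h2
  rw [Finset.prod_const_one] at hlim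
  have h3 : ∀ᶠ j : ℕ in Filter.atTop, ∏ q ∈ VAL_K M n,
      (1 + ((q : ℝ) ^ (2 * M.factorial * (j + 1)))⁻¹) < 1 + ε / 2 :=
    hlim.eventually (gt_mem_nhds (by linarith))
  obtain ⟨j, hj⟩ := h3.exists
  refine ⟨j, ?_⟩
  obtain ⟨h4, h5⟩ := VAL_split M n (2 * M.factorial * (j + 1)) hM (by positivity)
  rw [h4, h5]
  push_cast
  have h6 : ∏ q ∈ VAL_K M n, ((q : ℝ) ^ (2 * M.factorial * (j + 1)) + 1)
      = (∏ q ∈ VAL_K M n, (q : ℝ) ^ (2 * M.factorial * (j + 1))) *
        ∏ q ∈ VAL_K M n, (1 + ((q : ℝ) ^ (2 * M.factorial * (j + 1)))⁻¹) := by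
    rw [← Finset.prod_mul_distrib]
    refine Finset.prod_congr rfl fun q hq => ?_
    have hq0 : (0 : ℝ) < (q : ℝ) := by
      unfold VAL_K at hq
      exact_mod_cast (Nat.prime_of_mem_primeFactors (Finset.mem_filter.1 hq).1).pos
    have := (pow_pos hq0 (2 * M.factorial * (j + 1))).ne'
    field_simp
  rw [h6]
  set P : ℝ := ∏ q ∈ VAL_K M n, (q : ℝ) ^ (2 * M.factorial * (j + 1)) with hP
  set Q : ℝ := ∏ q ∈ VAL_K M n, (1 + ((q : ℝ) ^ (2 * M.factorial * (j + 1)))⁻¹) with hQ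
  have hP0 : 0 ≤ P := Finset.prod_nonneg fun q _ => by positivity
  have hQ0 : 0 ≤ Q := Finset.prod_nonneg fun q _ => by positivity
  have hle' : 2 * (WW M n : ℝ) ≤ 3 * DD M n := by exact_mod_cast hle
  have hD' : (0 : ℝ) < DD M n := by exact_mod_cast hD
  have h7 : (WW M n : ℝ) ≤ 3 / 2 * DD M n := by linarith
  calc (WW M n : ℝ) * (P * Q) ≤ (3 / 2 * DD M n) * (P * Q) :=
        mul_le_mul_of_nonneg_right h7 (mul_nonneg hP0 hQ0)
    _ ≤ (3 / 2 * DD M n) * (P * (1 + ε / 2)) := by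
        refine mul_le_mul_of_nonneg_left (mul_le_mul_of_nonneg_left hj.le hP0) (by positivity)
    _ = (3 / 2 + 3 / 4 * ε) * (DD M n * P) := by ring
    _ ≤ (3 / 2 + ε) * (DD M n * P) := by
        refine mul_le_mul_of_nonneg_right (by linarith) (mul_nonneg hD'.le hP0)

end Pool.Agent.Work.MP_113634_trap
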