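import Pool.Agent.Work.MP_113634_trap.Glue
import Pool.Agent.Work.MP_113634_trap.B_US
import Pool.Agent.Work.MP_113634_trap.B_PAP
import Pool.Agent.Work.MP_113634_trap.B_LEAK
import Pool.Agent.Work.MP_113634_trap.B_LIM
import Pool.Agent.Work.MP_113634_trap.B_LM
import Pool.Agent.Work.MP_113634_trap.B_GL
import Pool.Agent.Work.MP_113634_trap.B_RO
import Pool.Agent.Work.MP_113634_trap.B_R2
import Pool.Agent.Work.MP_113634_trap.B_REP
import Pool.Agent.Work.MP_113634_trap.B_VV
import Pool.Agent.Work.MP_113634_trap.B_DESC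
import Pool.Agent.Work.MP_113634_trap.B_VAL
import Pool.Agent.Work.MP_113634_trap.B_VLIM
import Pool.Agent.Work.MP_113634_trap.B_NUM
import Pool.Agent.Work.MP_113634_trap.B_SIX
import Pool.Agent.Work.MP_113634_trap.B_GRD
import Pool.Agent.Work.MP_113634_trap.B_GST
import Pool.Agent.Work.MP_113634_trap.B_LAN

/-!
# Congruence traps: all blocks
-/

set_option autoImplicit false

namespace Pool.Agent.Work.MP_113634_trap

theorem stmt_ALG : Stmt_ALG :=
  alg_of (stmt_DESC stmt_LM stmt_VV (blk_RO blk_GL) stmt_R2 stmt_REP) stmt_REP stmt_VAL stmt_VLIM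
    stmt_NUM

theorem stmt_A : Stmt_A := A_of (stmt_LEAK stmt_US3 stmt_PAP) stmt_ALG stmt_LIM

theorem stmt_C : Stmt_C := C_of (stmt_GRD stmt_US2) stmt_GST blk_LAN

end Pool.Agent.Work.MP_113634_trap
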