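import Pool.Agent.Work.MP_113634_trap.Interface

/-!
# Congruence traps: the descent
-/

set_option autoImplicit false

namespace Pool.Agent.Work.MP_113634_trap

open Pool.Agent.Work.MP_113634_nt (usum sstar sstar_add self_le_usum usum_mul)

/-- the potential -/
def DESC_f (M n : ℕ) : ℕ :=
  ∑ l ∈ M.primeFactors, (if vv M n l = 0 then 0 else 1 + kk M l - vv M n l)

theorem DESC_drop (M n n' l : ℕ) (hl : l ∈ M.primeFactors)
    (h1 : ∀ q ∈ M.primeFactors, q ≠ l → vv M n' q = vv M n q)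
    (h2 : (if vv M n' l = 0 then 0 else 1 + kk M l - vv M n' l)
      < (if vv M n l = 0 then 0 else 1 + kk M l - vv M n l)) : DESC_f M n' < DESC_f M n := by
  unfold DESC_f
  refine Finset.sum_lt_sum (fun q hq => ?_) ⟨l, hl, h2⟩
  by_cases h : q = l
  · subst h
    exact h2.le
  · rw [h1 q hq h]

theorem DESC_AA (M n b l : ℕ) (hl : l ∈ M.primeFactors) :
    l ^ (if vv M n l = kk M l then b else vv M n l) ∣ AA M n b ∧
      ¬ l ^ ((if vv M n l = kk M l then b else vv M n l) + 1) ∣ AA M n b := by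
  have hlp := Nat.prime_of_mem_primeFactors hl
  unfold AA
  rw [← Finset.mul_prod_erase _ _ hl]
  refine ⟨dvd_mul_right _ _, fun h => ?_⟩
  rw [pow_succ] at h
  have h2 := Nat.dvd_of_mul_dvd_mul_left (pow_pos hlp.pos _) h
  obtain ⟨q, hq, hq2⟩ := (Prime.dvd_finsetProd_iff hlp.prime _).1 h2
  rw [Finset.mem_erase] at hq
  have h3 := hlp.dvd_of_dvd_pow hq2
  exact hq.1 ((Nat.prime_dvd_prime_iff_eq hlp (Nat.prime_of_mem_primeFactors hq.2)).1 h3).symm

theorem DESC_neg (hlm : Stmt_LM) (M : ℕ) (hM : 0 < M) (S : Set ℕ) (hper : Per M S)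
    (hcl : CL M S) (A x : ℕ) (hA : 0 < A) (hx : x.Coprime M) (hAx : A * x ∈ S) :
    ∃ x' : ℕ, x'.Coprime M ∧ M ∣ x + x' ∧ A * x' ∈ S := by
  have hper1 : Per (1 * M) S := by rwa [one_mul]
  have hcl1 : CL (1 * M) S := by rwa [one_mul]
  obtain ⟨n', hn', h1, -⟩ := hlm 1 M one_pos hM (Nat.coprime_one_left M) S hper1 hcl1 A x hA
    (by rwa [one_mul]) hAx [1, 1] (by simp) (by intro c _; exact Nat.coprime_one_right c)
    (Nat.modEq_one)
  have h2 : x + x * (M - 1) = x * M := by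
    obtain ⟨m, rfl⟩ : ∃ m, M = m + 1 := ⟨M - 1, by omega⟩
    rw [Nat.add_sub_cancel]; ring
  refine ⟨x * (M - 1), ?_, ⟨x, by rw [h2]; ring⟩, ?_⟩
  · refine Nat.Coprime.mul_left hx ?_
    obtain ⟨m, rfl⟩ : ∃ m, M = m + 1 := ⟨M - 1, by omega⟩
    rw [Nat.add_sub_cancel]
    exact Nat.coprime_self_add_right.2 (Nat.coprime_one_right m)
  · refine hper n' _ ?_ hn'
    have h3 : n' + A * x ≡ A * (x * (M - 1)) + A * x [MOD M] := by
      have h4 : A * (x * (M - 1)) + A * x = A * (x * M) := by rw [← h2]; ring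
      rw [h4]
      exact (Nat.modEq_zero_iff_dvd.2 h1).trans
        (Nat.modEq_zero_iff_dvd.2 ⟨A * x, by ring⟩).symm
    exact Nat.ModEq.add_right_cancel' _ h3

/-- the local move at `l`, in terms of the exponents -/
theorem DESC_move (hlm : Stmt_LM) (hvv : Stmt_VV) (M : ℕ) (hM : 0 < M) (S : Set ℕ)
    (hper : Per M S) (hcl : CL M S) (n A y l : ℕ) (hl : l ∈ M.primeFactors) (hA : 0 < A)
    (hy : y.Coprime M) (hAy : A * y ∈ S) (hn : A * y ≡ n [MOD M] ∨ M ∣ A * y + n)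
    (xs : List ℕ) (hlen : 2 ≤ xs.length) (hxs : ∀ c ∈ xs, c.Coprime l)
    (hprod : A * xs.prod ≡ A * y [MOD l ^ kk M l]) :
    ∃ n' ∈ S, (∀ q ∈ M.primeFactors, q ≠ l → vv M n' q = vv M n q) ∧
      n' ≡ up A xs - A * xs.prod [MOD l ^ kk M l] := by
  have hlp := Nat.prime_of_mem_primeFactors hl
  have hPR : l ^ kk M l * (M / l ^ kk M l) = M := Nat.ordProj_mul_ordCompl_eq_self M l
  have hP : 0 < l ^ kk M l := pow_pos hlp.pos _
  have hR : 0 < M / l ^ kk M l := by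
    rcases Nat.eq_zero_or_pos (M / l ^ kk M l) with h | h
    · rw [h, mul_zero] at hPR
      omega
    · exact h
  have hcop : (l ^ kk M l).Coprime (M / l ^ kk M l) :=
    (Nat.coprime_ordCompl hlp hM.ne').pow_left _
  obtain ⟨n', hn', h1, h2⟩ := hlm (l ^ kk M l) (M / l ^ kk M l) hP hR hcop S
    (by rw [hPR]; exact hper) (by rw [hPR]; exact hcl) A y hA (by rw [hPR]; exact hy) hAy xs hlen
    (fun c hc => (hxs c hc).pow_right _) hprod
  refine ⟨n', hn', fun q hq hql => ?_, h2⟩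
  have hqp := Nat.prime_of_mem_primeFactors hq
  have hqR : q ^ kk M q ∣ M / l ^ kk M l := by
    have h3 : q ^ kk M q ∣ l ^ kk M l * (M / l ^ kk M l) := by
      rw [hPR]
      exact Nat.ordProj_dvd M q
    refine Nat.Coprime.dvd_of_dvd_mul_left ?_ h3
    exact Nat.Coprime.pow _ _ ((Nat.coprime_primes hqp hlp).2 hql)
  have hqM : q ^ kk M q ∣ M := Nat.ordProj_dvd M q
  refine (hvv M n n' q hM hq).1 ?_
  have h4 : q ^ kk M q ∣ n' + A * y := hqR.trans h1
  rcases hn with h5 | h5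
  · left
    have h6 : n' + A * y ≡ n' + n [MOD q ^ kk M q] := (h5.of_dvd hqM).add_left _
    exact Nat.modEq_zero_iff_dvd.1 (h6.symm.trans (Nat.modEq_zero_iff_dvd.2 h4))
  · right
    have h6 : q ^ kk M q ∣ A * y + n := hqM.trans h5
    have h7 : n' + A * y ≡ n + A * y [MOD q ^ kk M q] := by
      rw [add_comm n]
      exact (Nat.modEq_zero_iff_dvd.2 h4).trans (Nat.modEq_zero_iff_dvd.2 h6).symm
    exact Nat.ModEq.add_right_cancel' _ h7

/-- raising an exponent -/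
theorem DESC_raise (hlm : Stmt_LM) (hvv : Stmt_VV) (M : ℕ) (hM : 0 < M) (S : Set ℕ)
    (hper : Per M S) (hcl : CL M S) (n A x x' l v : ℕ) (hl : l ∈ M.primeFactors) (hA : 0 < A)
    (hx : x.Coprime M) (hx' : x'.Coprime M) (hAx : A * x ∈ S) (hAx' : A * x' ∈ S)
    (hxx : M ∣ x + x') (hn : A * x ≡ n [MOD M]) (hv : v = vv M n l) (hvk : v < kk M l)
    (hv0 : 0 < v)
    (h : ∃ y : ℕ, (y = x ∨ y = x') ∧ ∃ xs : List ℕ, 2 ≤ xs.length ∧ (∀ c ∈ xs, c.Coprime l) ∧
      xs.prod ≡ y [MOD l ^ kk M l] ∧ l ^ (v + 1) ∣ up A xs - A * xs.prod) :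
    ∃ n' ∈ S, DESC_f M n' < DESC_f M n := by
  obtain ⟨y, hy, xs, hlen, hxs, hprod, hdvd⟩ := h
  have hyM : y.Coprime M := by rcases hy with rfl | rfl <;> assumption
  have hyS : A * y ∈ S := by rcases hy with rfl | rfl <;> assumption
  have hyn : A * y ≡ n [MOD M] ∨ M ∣ A * y + n := by
    rcases hy with rfl | rfl
    · exact Or.inl hn
    · right
      have h1 : A * y + A * x ≡ A * y + n [MOD M] := hn.add_left _
      have h2 : M ∣ A * y + A * x := by
        rw [← mul_add, add_comm y x]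
        exact hxx.mul_left _
      exact Nat.modEq_zero_iff_dvd.1 (h1.symm.trans (Nat.modEq_zero_iff_dvd.2 h2))
  obtain ⟨n', hn', h1, h2⟩ := DESC_move hlm hvv M hM S hper hcl n A y l hl hA hyM hyS hyn xs hlen
    hxs (hprod.mul_left A)
  refine ⟨n', hn', DESC_drop M n n' l hl h1 ?_⟩
  have h3 : l ^ (v + 1) ∣ n' := by
    have h4 : l ^ (v + 1) ∣ l ^ kk M l := pow_dvd_pow _ hvk
    exact Nat.modEq_zero_iff_dvd.1 ((h2.of_dvd h4).trans (Nat.modEq_zero_iff_dvd.2 hdvd))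
  have h5 := (hvv M n n' l hM hl).2.1 (v + 1) hvk h3
  have h6 := (hvv M n' n' l hM hl).2.2.2.1
  rw [if_neg (by omega), if_neg (by omega)]
  omega

theorem stmt_DESC (hlm : Stmt_LM) (hvv : Stmt_VV) (hro : Stmt_RO) (hr2 : Stmt_R2)
    (hrep : Stmt_REP) : Stmt_DESC := by
  intro M hM S hper hcl hS
  obtain ⟨n, hn, hmin⟩ : ∃ n ∈ S, ∀ n' ∈ S, DESC_f M n ≤ DESC_f M n' := by
    obtain ⟨n, hn, h⟩ := WellFounded.has_min (measure (DESC_f M)).wf S hS
    exact ⟨n, hn, fun n' hn' => not_lt.1 (h n' hn')⟩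
  refine ⟨n, hn, fun b hb => ?_⟩
  have hA : 0 < AA M n b := by
    unfold AA
    exact Finset.prod_pos fun l hl => pow_pos (Nat.prime_of_mem_primeFactors hl).pos _
  obtain ⟨x, hx, hxn⟩ := hrep M hM n b hb
  have hAx : AA M n b * x ∈ S := hper _ _ hxn.symm hn
  obtain ⟨x', hx', hxx, hAx'⟩ := DESC_neg hlm M hM S hper hcl _ x hA hx hAx
  have hnl : ∀ l ∈ M.primeFactors, ¬ l ∣ x := fun l hl h => by
    have hlp := Nat.prime_of_mem_primeFactors hl
    have h1 : l ∣ Nat.gcd x M := Nat.dvd_gcd h (Nat.dvd_of_mem_primeFactors hl)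
    rw [hx.gcd_eq_one] at h1
    exact hlp.one_lt.ne' (Nat.dvd_one.1 h1)
  refine ⟨fun l hl hl2 h0 hk => ?_, fun l hl hl2 hk => ?_, fun hl h0 hk => ?_⟩
  · by_contra hcon
    obtain ⟨h1, h2⟩ := DESC_AA M n b l hl
    rw [if_neg hk.ne] at h1 h2
    obtain ⟨n', hn', hlt⟩ := DESC_raise hlm hvv M hM S hper hcl n _ x x' l (vv M n l) hl hA hx hx'
      hAx hAx' hxx hxn rfl hk h0 (hro l (Nat.prime_of_mem_primeFactors hl) hl2 _ _ _ x x' hk hA
      h1 h2 hcon (hnl l hl) ((Nat.ordProj_dvd M l).trans hxx))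
    exact absurd (hmin n' hn') (not_le.2 hlt)
  · by_contra hcon
    have hlp := Nat.prime_of_mem_primeFactors hl
    obtain ⟨h1, h2⟩ := DESC_AA M n b l hl
    rw [if_pos hk] at h1 h2
    have hkb : kk M l ≤ b := le_trans (Nat.factorization_lt l hM.ne').le hb
    have hPA : l ^ kk M l ∣ AA M n b := (pow_dvd_pow _ hkb).trans h1
    have hk1 := (hvv M n n l hM hl).2.2.2.2
    obtain ⟨n', hn', h3, h4⟩ := DESC_move hlm hvv M hM S hper hcl n _ x l hl hA hx hAx
      (Or.inl hxn) [1, 1] (by simp) (by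
        intro c hc
        simp only [List.mem_cons, List.not_mem_nil, or_false, or_self] at hc
        rw [hc]; exact Nat.coprime_one_left l)
      ((Nat.modEq_zero_iff_dvd.2 (hPA.mul_right _)).trans
        (Nat.modEq_zero_iff_dvd.2 (hPA.mul_right _)).symm)
    have h5 : ¬ l ∣ n' := by
      intro h6
      have h7 : l ∣ l ^ kk M l := dvd_pow_self l (by omega)
      have h8 : l ∣ up (AA M n b) [1, 1] - AA M n b * [1, 1].prod :=
        Nat.modEq_zero_iff_dvd.1 ((h4.of_dvd h7).symm.trans (Nat.modEq_zero_iff_dvd.2 h6))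
      have h9 : up (AA M n b) [1, 1] - AA M n b * [1, 1].prod = usum (AA M n b) * 4 - AA M n b := by
        unfold up
        simp
      rw [h9] at h8
      have h10 : AA M n b ≤ usum (AA M n b) * 4 := by
        have := self_le_usum hA
        omega
      have h11 : l ∣ usum (AA M n b) * 4 := by
        have := Nat.dvd_add h8 (h7.trans hPA)
        rwa [Nat.sub_add_cancel h10] at this
      rcases hlp.dvd_mul.1 h11 with h12 | h12
      · exact hcon h12
      · have h13 : l ∣ 2 ^ 2 := by norm_num; exact h12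
        exact hl2 ((Nat.prime_dvd_prime_iff_eq hlp Nat.prime_two).1 (hlp.dvd_of_dvd_pow h13))
    have h6 := (hvv M n n' l hM hl).2.2.1 h5
    refine absurd (hmin n' hn') (not_le.2 (DESC_drop M n n' l hl h3 ?_))
    rw [if_pos h6, if_neg (by omega)]
    omega
  · by_contra hcon
    obtain ⟨h1, h2⟩ := DESC_AA M n b 2 hl
    rw [if_neg hk.ne] at h1 h2
    obtain ⟨n', hn', hlt⟩ := DESC_raise hlm hvv M hM S hper hcl n _ x x' 2 (vv M n 2) hl hA hx hx'
      hAx hAx' hxx hxn rfl hk h0 (hr2 _ _ _ x x' hk hA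
      h1 h2 hcon (hnl 2 hl) ((Nat.ordProj_dvd M 2).trans hxx))
    exact absurd (hmin n' hn') (not_le.2 hlt)

end Pool.Agent.Work.MP_113634_trap
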