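import Pool.Agent.Work.MP_113634_trap.Interface

/-!
# Congruence traps: assembly
-/

set_option autoImplicit false

namespace Pool.Agent.Work.MP_113634_trap

open Pool.Agent.Work.MP_113634_nt (usum sstar sstar_add self_le_usum usum_mul)

theorem AA_pos (M n b : ℕ) : 0 < AA M n b := by
  unfold AA
  refine Finset.prod_pos fun l hl => pow_pos (Nat.prime_of_mem_primeFactors hl).pos _

theorem alg_of (hdesc : Stmt_DESC) (hrep : Stmt_REP) (hval : Stmt_VAL) (hvlim : Stmt_VLIM)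
    (hnum : Stmt_NUM) : Stmt_ALG := by
  intro M hM S hper hcl hS ε hε
  obtain ⟨n, hn, hP⟩ := hdesc M hM S hper hcl hS
  have hb : ∀ j : ℕ, M ≤ 2 * M.factorial * (j + 1) := by
    intro j
    have h1 : M ≤ M.factorial := Nat.self_le_factorial M
    have h2 : 1 ≤ j + 1 := Nat.le_add_left _ _
    nlinarith
  have hnumD : 2 * WW M n ≤ 3 * DD M n := by
    obtain ⟨hv1, hv2⟩ := hval M n 0 hM
    obtain ⟨hp1, hp2, hp3⟩ := hP _ (hb 0)
    refine hnum (TT M n) (KK M n) (vv M n) ?_ ?_ ?_ ?_ ?_ ?_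
    · intro l hl
      unfold TT at hl
      rw [Finset.mem_filter] at hl
      exact ⟨Nat.prime_of_mem_primeFactors hl.1, hl.2.1⟩
    · intro l hl
      unfold KK at hl
      rw [Finset.mem_filter] at hl
      exact ⟨Nat.prime_of_mem_primeFactors hl.1, hl.2.1⟩
    · rw [Finset.disjoint_left]
      intro l h1 h2
      unfold TT at h1
      unfold KK at h2
      rw [Finset.mem_filter] at h1 h2
      omega
    · intro l hl h2
      unfold TT at hl
      rw [Finset.mem_filter] at hl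
      exact hv1 l hl.1 h2 _ (hp1 l hl.1 h2 hl.2.1 hl.2.2)
    · intro l hl
      unfold KK at hl
      rw [Finset.mem_filter] at hl
      have h3 := hv1 l hl.1 hl.2.1 1 (by rw [pow_one]; exact hp2 l hl.1 hl.2.1 hl.2.2)
      rwa [pow_one] at h3
    · intro h2
      refine hv2 h2 _ ?_
      unfold TT at h2
      rw [Finset.mem_filter] at h2
      exact hp3 h2.1 h2.2.1 h2.2.2
  obtain ⟨j, hj⟩ := hvlim M n hM hnumD ε hε
  obtain ⟨c, hc, hcn⟩ := hrep M hM n _ (hb j)
  exact ⟨_, c, AA_pos M n _, hc, hper _ _ hcn.symm hn, hj⟩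

theorem A_of (hleak : Stmt_LEAK) (halg : Stmt_ALG) (hlim : Stmt_LIM) : Stmt_A := by
  intro M hM S hper hS δ hδ ⟨X, hX⟩
  by_contra hcon
  have hcl := hleak M hM S hper hcon
  obtain ⟨A, c, hA, hc, hAc, hle⟩ := halg M hM S hper hcl hS (δ / 4) (by positivity)
  obtain ⟨n, hn, hnS, hle2⟩ := hlim M hM S hper A c hA hc hAc (δ / 4) (by positivity) hle
    (max X 1)
  have h1 := hX n (le_trans (le_max_left _ _) hn) hnS
  have h2 : (1 : ℝ) ≤ n := by exact_mod_cast le_trans (le_max_right _ _) hn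
  nlinarith

/-- the residue classes `N t` with `t` prime to `N`, modulo `N ^ 2` -/
def SN (N : ℕ) : Set ℕ := {n | ∃ m : ℕ, N.Coprime m ∧ n = N * m}

theorem SN_per (N : ℕ) (hN : 0 < N) : Per (N ^ 2) (SN N) := by
  rintro _ n h ⟨m, hm, rfl⟩
  have h1 : N ∣ n := by
    have h2 : N * m ≡ n [MOD N] := h.of_dvd (dvd_pow_self N two_ne_zero)
    exact (Nat.modEq_zero_iff_dvd.1 (h2.symm.trans (Nat.modEq_zero_iff_dvd.2 ⟨m, rfl⟩)))
  obtain ⟨t, rfl⟩ := h1
  refine ⟨t, ?_, rfl⟩
  have h3 : m ≡ t [MOD N] := by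
    have h4 : N * m ≡ N * t [MOD N * N] := by rwa [pow_two] at h
    exact Nat.ModEq.mul_left_cancel' hN.ne' h4
  rw [Nat.coprime_comm, Nat.Coprime, ← h3.gcd_eq, ← Nat.Coprime, Nat.coprime_comm]
  exact hm

open Classical in
theorem C_of (hgrd : Stmt_GRD) (hgst : Stmt_GST) (hlan : Stmt_LAN) : Stmt_C := by
  intro C
  obtain ⟨N, hN, hCN, hsup⟩ := hgrd C
  have hN0 : 0 < N := by omega
  obtain ⟨K, hK, X, hX⟩ := hlan (N.primeFactors.card + N.factorization 2 + 1)
  have hstay : ∀ n ∈ SN N, 0 < n → N.primeFactors.card + N.factorization 2 + 1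
      ≤ n.primeFactors.card → sstar n ∈ SN N := by
    rintro _ ⟨m, hm, rfl⟩ hpos hT
    have hm0 : 0 < m := Nat.pos_of_mul_pos_left hpos
    have hcard : (N * m).primeFactors.card = N.primeFactors.card + m.primeFactors.card := by
      rw [hm.primeFactors_mul, Finset.card_union_of_disjoint hm.disjoint_primeFactors]
    obtain ⟨m', h1, h2⟩ := hgst N hN hsup m hm0 hm (by omega)
    exact ⟨m', h2, h1⟩
  refine ⟨N ^ 2, _, SN N, K, pow_pos hN0 2, SN_per N hN0, ⟨N * 1, 1, Nat.coprime_one_right N, rfl⟩,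
    hK, ?_, hstay, X, ?_⟩
  · rintro _ ⟨m, hm, rfl⟩ hpos
    have hm0 : 0 < m := Nat.pos_of_mul_pos_left hpos
    have h1 := sstar_add hpos
    rw [usum_mul hN0 hm0 hm] at h1
    have h2 := self_le_usum hm0
    have h3 : ((C + 1) * N) * m < usum N * usum m :=
      lt_of_lt_of_le (Nat.mul_lt_mul_of_pos_right hCN hm0) (Nat.mul_le_mul_left _ h2)
    have h4 : ((C + 1) * N) * m = C * (N * m) + N * m := by ring
    omega
  · intro x hx
    refine le_trans ?_ (hX x hx)
    norm_cast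
    refine Finset.card_le_card fun n hn => ?_
    rw [Finset.mem_filter] at hn ⊢
    refine ⟨hn.1, ?_⟩
    by_contra hcon
    exact hn.2.2 (hstay n hn.2.1 (Finset.mem_Icc.1 hn.1).1 (by omega))

end Pool.Agent.Work.MP_113634_trap
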