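import Mathlib
import Pool.Agent.Work.MP_113634_nt.Unitary

/-!
# Congruence traps for the unitary aliquot map: interface

The proof is in the note of helper71 on MP_113634_nt (congruence traps).
-/

set_option autoImplicit false

namespace Pool.Agent.Work.MP_113634_trap

open Pool.Agent.Work.MP_113634_nt (usum sstar)

/-- `S` is a union of residue classes modulo `M` -/
def Per (M : ℕ) (S : Set ℕ) : Prop := ∀ m n : ℕ, m ≡ n [MOD M] → m ∈ S → n ∈ S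

/-- `σ*` of `A` times distinct new primes `c ∈ xs` -/
def up (A : ℕ) (xs : List ℕ) : ℕ := usum A * (xs.map (fun c => c + 1)).prod

/-- the closure property -/
def CL (M : ℕ) (S : Set ℕ) : Prop :=
  ∀ A : ℕ, 0 < A → ∀ xs : List ℕ, xs ≠ [] → (∀ c ∈ xs, Nat.Coprime c M) →
    A * xs.prod ∈ S → up A xs - A * xs.prod ∈ S

/-- exponent of `l` in `M` -/
def kk (M l : ℕ) : ℕ := M.factorization l

/-- exponent of `l` in `gcd(n, M)` -/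
def vv (M n l : ℕ) : ℕ := (Nat.gcd n M).factorization l

/-- the representative of the class of `n` up to units -/
def AA (M n b : ℕ) : ℕ := ∏ l ∈ M.primeFactors, l ^ (if vv M n l = kk M l then b else vv M n l)

/-- the primes `l` with `0 < v < k` -/
def TT (M n : ℕ) : Finset ℕ := M.primeFactors.filter fun l => 0 < vv M n l ∧ vv M n l < kk M l

/-- the odd primes with `v = k` -/
def KK (M n : ℕ) : Finset ℕ := M.primeFactors.filter fun l => l ≠ 2 ∧ vv M n l = kk M l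

/-- `D = ∏_{l ∈ T} l^v` -/
def DD (M n : ℕ) : ℕ := ∏ l ∈ TT M n, l ^ vv M n l

/-- `σ*(D)` -/
def WW (M n : ℕ) : ℕ := ∏ l ∈ TT M n, (l ^ vv M n l + 1)

/-! ## Unitary divisor sums -/

def Stmt_US1 : Prop := ∀ p a : ℕ, p.Prime → 1 ≤ a → usum (p ^ a) = p ^ a + 1

def Stmt_US2 : Prop := ∀ (s : Finset ℕ) (a : ℕ → ℕ), (∀ p ∈ s, p.Prime) →
  usum (∏ p ∈ s, p ^ a p) = ∏ p ∈ s, (if a p = 0 then 1 else p ^ a p + 1)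

def Stmt_US3 : Prop := ∀ A : ℕ, 0 < A → ∀ qs : List ℕ, qs.Nodup →
  (∀ q ∈ qs, q.Prime ∧ ¬ q ∣ A) → usum (A * qs.prod) = up A qs

/-! ## Analysis -/

/-- primes in a fixed arithmetic progression, lower bound of the right order -/
def Stmt_PAP : Prop := ∀ M a : ℕ, 0 < M → Nat.Coprime a M → ∃ c : ℝ, 0 < c ∧ ∃ X : ℕ,
  ∀ x : ℕ, X ≤ x → c * x / Real.log x ≤
    (((Finset.Icc 1 x).filter fun p => p.Prime ∧ p ≡ a [MOD M]).card : ℝ)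

open Classical in
def Stmt_LEAK : Prop := ∀ M : ℕ, 0 < M → ∀ S : Set ℕ, Per M S →
  (¬ ∃ c : ℝ, 0 < c ∧ ∃ X : ℕ, ∀ x : ℕ, X ≤ x → c * x / Real.log x ≤
    (((Finset.Icc 1 x).filter fun n => n ∈ S ∧ sstar n ∉ S).card : ℝ)) → CL M S

def Stmt_LIM : Prop := ∀ M : ℕ, 0 < M → ∀ S : Set ℕ, Per M S → ∀ A c : ℕ, 0 < A →
  Nat.Coprime c M → A * c ∈ S → ∀ ε : ℝ, 0 < ε → (usum A : ℝ) ≤ (3 / 2 + ε) * A →
  ∀ X : ℕ, ∃ n : ℕ, X ≤ n ∧ n ∈ S ∧ (sstar n : ℝ) ≤ (1 / 2 + 2 * ε) * n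

/-! ## Local moves -/

def Stmt_LM : Prop := ∀ P R : ℕ, 0 < P → 0 < R → P.Coprime R → ∀ S : Set ℕ,
  Per (P * R) S → CL (P * R) S → ∀ A x : ℕ, 0 < A → x.Coprime (P * R) → A * x ∈ S →
  ∀ xs : List ℕ, 2 ≤ xs.length → (∀ c ∈ xs, c.Coprime P) → A * xs.prod ≡ A * x [MOD P] →
  ∃ n' ∈ S, R ∣ n' + A * x ∧ n' ≡ up A xs - A * xs.prod [MOD P]

def Stmt_GL : Prop := ∀ l : ℕ, l.Prime → 5 ≤ l → ∀ y z : ℕ, ¬ l ∣ y → ¬ l ∣ z →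
  ∃ xs : List ℕ, 2 ≤ xs.length ∧ (∀ c ∈ xs, ¬ l ∣ c ∧ ¬ l ∣ c + 1) ∧
    xs.prod ≡ y [MOD l] ∧ (xs.map (fun c => c + 1)).prod ≡ z [MOD l]

/-- raising the exponent of an odd prime -/
def Stmt_RO : Prop := ∀ l : ℕ, l.Prime → l ≠ 2 → ∀ k v A x x' : ℕ, v < k → 0 < A →
  l ^ v ∣ A → ¬ l ^ (v + 1) ∣ A → ¬ l ^ (v + 1) ∣ usum A → ¬ l ∣ x → l ^ k ∣ x + x' →
  ∃ y : ℕ, (y = x ∨ y = x') ∧ ∃ xs : List ℕ, 2 ≤ xs.length ∧ (∀ c ∈ xs, c.Coprime l) ∧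
    xs.prod ≡ y [MOD l ^ k] ∧ l ^ (v + 1) ∣ up A xs - A * xs.prod

/-- raising the exponent of two -/
def Stmt_R2 : Prop := ∀ k v A x x' : ℕ, v < k → 0 < A →
  2 ^ v ∣ A → ¬ 2 ^ (v + 1) ∣ A → ¬ 2 ^ (v - 1) ∣ usum A → ¬ 2 ∣ x → 2 ^ k ∣ x + x' →
  ∃ y : ℕ, (y = x ∨ y = x') ∧ ∃ xs : List ℕ, 2 ≤ xs.length ∧ (∀ c ∈ xs, c.Coprime 2) ∧
    xs.prod ≡ y [MOD 2 ^ k] ∧ 2 ^ (v + 1) ∣ up A xs - A * xs.prod

/-! ## Descent -/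

def Stmt_REP : Prop := ∀ M : ℕ, 0 < M → ∀ n b : ℕ, M ≤ b →
  ∃ c : ℕ, c.Coprime M ∧ AA M n b * c ≡ n [MOD M]

/-- how the exponents `vv` change -/
def Stmt_VV : Prop := ∀ M n n' l : ℕ, 0 < M → l ∈ M.primeFactors →
  ((l ^ kk M l ∣ n' + n ∨ n' ≡ n [MOD l ^ kk M l]) → vv M n' l = vv M n l) ∧
  (∀ v : ℕ, v ≤ kk M l → l ^ v ∣ n' → v ≤ vv M n' l) ∧
  (¬ l ∣ n' → vv M n' l = 0) ∧ vv M n l ≤ kk M l ∧ 1 ≤ kk M l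

def Stmt_DESC : Prop := ∀ M : ℕ, 0 < M → ∀ S : Set ℕ, Per M S → CL M S → S.Nonempty →
  ∃ n ∈ S, ∀ b : ℕ, M ≤ b →
    (∀ l ∈ M.primeFactors, l ≠ 2 → 0 < vv M n l → vv M n l < kk M l →
      l ^ (vv M n l + 1) ∣ usum (AA M n b)) ∧
    (∀ l ∈ M.primeFactors, l ≠ 2 → vv M n l = kk M l → l ∣ usum (AA M n b)) ∧
    (2 ∈ M.primeFactors → 0 < vv M n 2 → vv M n 2 < kk M 2 →
      2 ^ (vv M n 2 - 1) ∣ usum (AA M n b))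

/-- the part of `σ*(A)` at the primes of `T` -/
def Stmt_VAL : Prop := ∀ M n j : ℕ, 0 < M →
  (∀ l ∈ M.primeFactors, l ≠ 2 → ∀ i : ℕ,
    l ^ i ∣ usum (AA M n (2 * M.factorial * (j + 1))) → l ^ i ∣ WW M n) ∧
  (2 ∈ TT M n → ∀ i : ℕ, 2 ^ i ∣ usum (AA M n (2 * M.factorial * (j + 1))) →
    2 ^ i ∣ WW M n * 2 ^ (KK M n).card)

def Stmt_VLIM : Prop := ∀ M n : ℕ, 0 < M → 2 * WW M n ≤ 3 * DD M n → ∀ ε : ℝ, 0 < ε →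
  ∃ j : ℕ, (usum (AA M n (2 * M.factorial * (j + 1))) : ℝ)
    ≤ (3 / 2 + ε) * (AA M n (2 * M.factorial * (j + 1)) : ℕ)

/-- the numerical lemma -/
def Stmt_NUM : Prop := ∀ (T K : Finset ℕ) (v : ℕ → ℕ), (∀ l ∈ T, l.Prime ∧ 1 ≤ v l) →
  (∀ l ∈ K, l.Prime ∧ l ≠ 2) → Disjoint T K →
  (∀ l ∈ T, l ≠ 2 → l ^ (v l + 1) ∣ ∏ q ∈ T, (q ^ v q + 1)) →
  (∀ l ∈ K, l ∣ ∏ q ∈ T, (q ^ v q + 1)) →
  (2 ∈ T → 2 ^ (v 2 - 1) ∣ (∏ q ∈ T, (q ^ v q + 1)) * 2 ^ K.card) →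
  2 * ∏ q ∈ T, (q ^ v q + 1) ≤ 3 * ∏ q ∈ T, q ^ v q

def Stmt_ALG : Prop := ∀ M : ℕ, 0 < M → ∀ S : Set ℕ, Per M S → CL M S → S.Nonempty →
  ∀ ε : ℝ, 0 < ε → ∃ A c : ℕ, 0 < A ∧ Nat.Coprime c M ∧ A * c ∈ S ∧
    (usum A : ℝ) ≤ (3 / 2 + ε) * A

/-! ## Sharpness of 1/2 -/

def Stmt_SIX : Prop := ∀ n : ℕ, n ≡ 6 [MOD 12] →
  n < 2 * sstar n ∧ (¬ sstar n ≡ 6 [MOD 12] → ∃ b : ℕ, n = 2 * 3 ^ b)

/-! ## Stable drivers -/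

/-- the guard -/
def Stmt_GRD : Prop := ∀ C : ℕ, ∃ N : ℕ, 2 ≤ N ∧ (C + 1) * N < usum N ∧
  ∀ l : ℕ, l.Prime → l ≠ 2 → l ∣ N → l ^ (N.factorization l + 1) ∣ usum N

/-- one step: the driver stays -/
def Stmt_GST : Prop := ∀ N : ℕ, 2 ≤ N →
  (∀ l : ℕ, l.Prime → l ≠ 2 → l ∣ N → l ^ (N.factorization l + 1) ∣ usum N) →
  ∀ m : ℕ, 0 < m → N.Coprime m → N.factorization 2 < m.primeFactors.card →
    ∃ m' : ℕ, sstar (N * m) = N * m' ∧ N.Coprime m'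

open Classical in
/-- Landau: integers with fewer than `T` distinct prime factors -/
def Stmt_LAN : Prop := ∀ T : ℕ, ∃ K : ℝ, 0 < K ∧ ∃ X : ℕ, ∀ x : ℕ, X ≤ x →
  (((Finset.Icc 1 x).filter fun n => n.primeFactors.card < T).card : ℝ)
    ≤ K * x * (Real.log (Real.log x)) ^ T / Real.log x

/-! ## The three parts -/

open Classical in
def Stmt_A : Prop := ∀ M : ℕ, 0 < M → ∀ S : Set ℕ, Per M S → S.Nonempty → ∀ δ : ℝ, 0 < δ →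
  (∃ X : ℕ, ∀ n : ℕ, X ≤ n → n ∈ S → (1 / 2 + δ) * (n : ℝ) ≤ sstar n) →
  ∃ c : ℝ, 0 < c ∧ ∃ X : ℕ, ∀ x : ℕ, X ≤ x → c * x / Real.log x ≤
    (((Finset.Icc 1 x).filter fun n => n ∈ S ∧ sstar n ∉ S).card : ℝ)

open Classical in
def Stmt_C : Prop := ∀ C : ℕ, ∃ M T : ℕ, ∃ S : Set ℕ, ∃ K : ℝ, 0 < M ∧ Per M S ∧ S.Nonempty ∧
  0 < K ∧ (∀ n ∈ S, 0 < n → C * n < sstar n) ∧
  (∀ n ∈ S, 0 < n → T ≤ n.primeFactors.card → sstar n ∈ S) ∧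
  ∃ X : ℕ, ∀ x : ℕ, X ≤ x →
    (((Finset.Icc 1 x).filter fun n => n ∈ S ∧ sstar n ∉ S).card : ℝ)
      ≤ K * x * (Real.log (Real.log x)) ^ T / Real.log x

end Pool.Agent.Work.MP_113634_trap
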